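import Pool.Agent.Lib.MP_c7af3c_ag.T2C.H38.Place

/-! Row C_P_DET: the determinant is not zero. -/

set_option autoImplicit false

namespace Pool.Agent.T2C.H38

open MvPolynomial Pool.Agent.Gen Pool.Agent.Sharp Pool.Agent.Edge
open Pool.Agent.Sharp.H75 (DG Tup Hom)
open Pool.Agent.Edge.H65 (ssub)
open Pool.Agent.T2C.H8 (rs RC)

section

variable {L : Type} [Field L] {N n c : ℕ} {d : Fin c → ℕ}

theorem rs_sum {ι : Type} (s : Finset ι) (P : Fin 3 → Fin (n + 1) → L) (w : ι → L)
    (G : ι → Tup L n c) : rs P (∑ j ∈ s, w j • G j) = ∑ j ∈ s, w j • rs P (G j) := by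
  funext m
  rw [H8.rs_apply, Finset.sum_apply, map_sum, Finset.sum_apply]
  refine Finset.sum_congr rfl fun j _ => ?_
  rw [Pi.smul_apply, map_smul, Pi.smul_apply, H8.rs_apply]

theorem hom_sum {ι : Type} (s : Finset ι) (w : ι → L) {G : ι → Tup L n c}
    (hG : ∀ j, Hom d (G j)) : Hom d (∑ j ∈ s, w j • G j) := by
  intro m
  rw [Finset.sum_apply]
  refine IsHomogeneous.sum _ _ _ fun j _ => ?_
  rw [Pi.smul_apply, smul_eq_C_mul]
  have h3 := (isHomogeneous_C (Fin (n + 1)) (w j)).mul (hG j m)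
  rwa [zero_add] at h3

theorem nz [CharZero L] (e : Cx N c ≃ Rw N n) {D : DSys L n c d} {E : Dat N n c} (hE : E.Hm d)
    (h2 : ∀ m, 2 ≤ d m) {x : Fin (n + 1) → L} {t : Fin 3 → Fin (n + 1)}
    {P : Fin 3 → Fin (n + 1) → L} (hp : Pl D x t P)
    (hinj : ∀ w : Fin N × Wx c → L,
      (∀ p, ∑ j, w j • rs P (GV E (xi x t) j p) ∈ RC D x t P) → w = 0) :
    Dl e D ![x, P 1, P 2] E (xi x t) (xi x t) ≠ 0 := by
  unfold Dl
  apply dt_ne_zero
  intro w hw
  have hxi : ∀ i, (xi x t i).IsHomogeneous 1 := fun i => lt_hom _ _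
  have hx1 : ∀ i : Fin 2, eval x (xi x t i.succ) = 0 := by
    intro i
    unfold xi
    rw [eval_lt, Fin.sum_univ_three]
    fin_cases i <;> simp [hp.x0]
  have hx0 : eval x (xi x t 0) = 1 := by
    unfold xi
    rw [eval_lt, Fin.sum_univ_three]
    simp [hp.x0]
  let H : Fin N → Tup L n c := fun p =>
    ∑ u, w (Sum.inr (Sum.inl u)) • GU d (xi x t) u p +
      ∑ j, w (Sum.inr (Sum.inr j)) • GV E (xi x t) j p
  have hH : ∀ p, Hom d (H p) := by
    intro p m
    exact (hom_sum _ _ (fun u => GU_hom hxi u p) m).add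
      (hom_sum _ _ (fun j => GV_hom hE h2 hxi j p) m)
  -- the relation in one copy
  have hrel : ∀ p i f, ∑ k, ppc (![x, P 1, P 2] : Fin 3 → Fin (n + 1) → L) k (i, f) *
      w (Sum.inl (p, k)) +
      DG D (H p) ((![x, P 1, P 2] : Fin 3 → Fin (n + 1) → L) i f) = 0 := by
    intro p i f
    have h1 := hw (p, (i, f))
    rw [Fintype.sum_sum_type, Fintype.sum_sum_type] at h1
    have e1 : ∑ k : Fin N × K7, w (Sum.inl k) * cN D ![x, P 1, P 2]
        (Sum.elim (GU d (xi x t)) (GV E (xi x t))) (Sum.inl k) (p, (i, f)) =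
        ∑ k, ppc (![x, P 1, P 2] : Fin 3 → Fin (n + 1) → L) k (i, f) * w (Sum.inl (p, k)) := by
      rw [Fintype.sum_prod_type, Finset.sum_eq_single p]
      · refine Finset.sum_congr rfl fun k _ => ?_
        rw [mul_comm]
        congr 1
        exact if_pos rfl
      · intro q _ hq
        refine Finset.sum_eq_zero fun k _ => ?_
        have h3 : cN D ![x, P 1, P 2] (Sum.elim (GU d (xi x t)) (GV E (xi x t)))
            (Sum.inl (q, k)) (p, (i, f)) = 0 := if_neg (Ne.symm hq)
        rw [h3, mul_zero]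
      · intro h
        exact absurd (Finset.mem_univ _) h
    have e2 : ∀ u, cN D ![x, P 1, P 2] (Sum.elim (GU d (xi x t)) (GV E (xi x t)))
        (Sum.inr (Sum.inl u)) (p, (i, f)) =
        H75.VT D ((![x, P 1, P 2] : Fin 3 → Fin (n + 1) → L) i) (GU d (xi x t) u p) f :=
      fun u => rfl
    have e3 : ∀ j, cN D ![x, P 1, P 2] (Sum.elim (GU d (xi x t)) (GV E (xi x t)))
        (Sum.inr (Sum.inr j)) (p, (i, f)) =
        H75.VT D ((![x, P 1, P 2] : Fin 3 → Fin (n + 1) → L) i) (GV E (xi x t) j p) f :=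
      fun j => rfl
    simp only [e2, e3] at h1
    rw [e1] at h1
    rw [← h1, ← H75.VT_apply]
    congr 1
    simp only [H]
    rw [map_add, map_sum, map_sum, Pi.add_apply, Finset.sum_apply, Finset.sum_apply]
    congr 1
    · refine Finset.sum_congr rfl fun u _ => ?_
      rw [map_smul, Pi.smul_apply, smul_eq_mul]
    · refine Finset.sum_congr rfl fun j _ => ?_
      rw [map_smul, Pi.smul_apply, smul_eq_mul]
  -- the powers of the first form
  have hU : ∀ u : Fin N × Fin c, w (Sum.inr (Sum.inl u)) = 0 := by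
    rintro ⟨p, m⟩
    have h3 : ∑ f, eval x (pderiv f (D.F m)) * (x f * w (Sum.inl (p, Sum.inl ())) +
        H75.VT D x (H p) f) = 0 := by
      refine Finset.sum_eq_zero fun f _ => ?_
      have h4 := hrel p 0 f
      rw [row_zero] at h4
      have h5 : x f * w (Sum.inl (p, Sum.inl ())) + H75.VT D x (H p) f = 0 := by
        rw [H75.VT_apply]
        exact h4
      rw [h5, mul_zero]
    have h4 : ∑ f, eval x (pderiv f (D.F m)) * (x f * w (Sum.inl (p, Sum.inl ())) +
        H75.VT D x (H p) f) = (∑ f, eval x (pderiv f (D.F m)) * x f) *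
        w (Sum.inl (p, Sum.inl ())) + ∑ f, eval x (pderiv f (D.F m)) * H75.VT D x (H p) f := by
      rw [Finset.sum_mul, ← Finset.sum_add_distrib]
      exact Finset.sum_congr rfl fun f _ => by ring
    rw [h4, grad_x D hp.h0, zero_mul, zero_add, grad_VT D hp.h0 (hH p), neg_eq_zero] at h3
    have h5 : eval x (H p m) = w (Sum.inr (Sum.inl (p, m))) := by
      simp only [H]
      rw [Pi.add_apply, map_add, Finset.sum_apply, Finset.sum_apply, map_sum, map_sum]
      have h6 : ∑ j, eval x ((w (Sum.inr (Sum.inr j)) • GV E (xi x t) j p) m) = 0 := by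
        refine Finset.sum_eq_zero fun j _ => ?_
        rw [Pi.smul_apply, smul_eval, eval_GV E hx1, mul_zero]
      rw [h6, add_zero, Finset.sum_eq_single (p, m)]
      · rw [Pi.smul_apply, smul_eval]
        simp [GU, hx0]
      · rintro ⟨q, m'⟩ _ hne
        rw [Pi.smul_apply, smul_eval]
        unfold GU
        split_ifs with h7
        · have h8 : m ≠ m' := fun h => hne (by rw [h]; exact Prod.ext h7.symm rfl)
          rw [Pi.single_eq_of_ne h8, map_zero, mul_zero]
        · rw [Pi.zero_apply, map_zero, mul_zero]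
      · intro h
        exact absurd (Finset.mem_univ _) h
    rw [← h5]
    exact h3
  have hHV : ∀ p, H p = ∑ j, w (Sum.inr (Sum.inr j)) • GV E (xi x t) j p := by
    intro p
    simp only [H, hU, zero_smul, Finset.sum_const_zero, zero_add]
  -- the first frame coefficient
  have hK0 : ∀ p, w (Sum.inl (p, Sum.inl ())) = 0 := by
    intro p
    have h4 := hrel p 0 (t 0)
    rw [row_zero] at h4
    simp only [Matrix.cons_val_zero, hp.x0, one_mul] at h4
    rwa [Derivation.map_one_eq_zero, add_zero] at h4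
  have hDx : ∀ p f, DG D (H p) (x f) = 0 := by
    intro p f
    have h4 := hrel p 0 f
    rw [row_zero, hK0, mul_zero, zero_add] at h4
    exact h4
  have hst : ∀ p (a : Fin 2) f, x f * w (Sum.inl (p, Sum.inr (a, 0))) +
      P 1 f * w (Sum.inl (p, Sum.inr (a, 1))) + P 2 f * w (Sum.inl (p, Sum.inr (a, 2))) +
      DG D (H p) (P a.succ f) = 0 := by
    intro p a f
    have h4 := hrel p a.succ f
    rw [row_succ, Fin.sum_univ_three] at h4
    fin_cases a
    · exact h4
    · exact h4
  have hDc : ∀ p i j, DG D (H p) (P i (t j)) = 0 := by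
    intro p i j
    rw [hp.Pt]
    split_ifs
    · exact Derivation.map_one_eq_zero _
    · exact map_zero _
  have hK1 : ∀ p (a : Fin 2), w (Sum.inl (p, Sum.inr (a, 0))) = 0 := by
    intro p a
    have h4 := hst p a (t 0)
    rw [hDc, hp.x0, hp.Pt, hp.Pt, if_neg (by decide), if_neg (by decide)] at h4
    linear_combination h4
  have hK2 : ∀ p (a : Fin 2), w (Sum.inl (p, Sum.inr (a, 1))) = 0 := by
    intro p a
    have h4 := hst p a (t 1)
    rw [hDc, hK1, hp.Pt, hp.Pt, if_pos rfl, if_neg (by decide)] at h4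
    linear_combination h4
  have hK3 : ∀ p (a : Fin 2), w (Sum.inl (p, Sum.inr (a, 2))) = 0 := by
    intro p a
    have h4 := hst p a (t 2)
    rw [hDc, hK1, hK2, hp.Pt, hp.Pt, if_neg (by decide), if_pos rfl] at h4
    linear_combination h4
  have hDP : ∀ p (a : Fin 2) f, DG D (H p) (P a.succ f) = 0 := by
    intro p a f
    have h4 := hst p a f
    rw [hK1, hK2, hK3] at h4
    linear_combination h4
  have hDP1 : ∀ p f, DG D (H p) (P 1 f) = 0 := fun p f => hDP p 0 f
  have hDP2 : ∀ p f, DG D (H p) (P 2 f) = 0 := fun p f => hDP p 1 f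
  have hDP0 : ∀ p f, DG D (H p) (P 0 f) = 0 := by
    intro p f
    have h1 := hp.xP f
    rw [Fin.sum_univ_three, hp.x0] at h1
    have h4 : P 0 f = x f - P 1 f * x (t 1) - P 2 f * x (t 2) := by
      rw [h1]
      ring
    rw [h4, map_sub, map_sub, Derivation.leibniz, Derivation.leibniz, hDx, hDx, hDx, hDP1, hDP2]
    simp
  have hfix : ∀ p, H8.Fix D x P (H p) := by
    intro p
    refine ⟨hDx p, fun i f => ?_⟩
    fin_cases i
    · exact hDP0 p f
    · exact hDP1 p f
    · exact hDP2 p f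
  have hJ := hinj (fun j => w (Sum.inr (Sum.inr j))) fun p => by
    have h1 := (H8.fix_iff hp.plC (hH p)).1 (hfix p)
    rw [hHV, rs_sum] at h1
    exact h1
  funext k
  rcases k with ⟨p, k | ⟨a, b⟩⟩ | u | j
  · exact hK0 p
  · fin_cases b
    · exact hK1 p a
    · exact hK2 p a
    · exact hK3 p a
  · exact hU u
  · exact congrFun hJ j

end

end Pool.Agent.T2C.H38
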