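import Pool.Agent.Lib.MP_c7af3c_ag.T2C.H38.Blk2
import Pool.Agent.Lib.MP_c7af3c_ag.T2C.H38.Nz

/-! Row C_P_DET: the plane is defined over `k`. -/

set_option autoImplicit false

namespace Pool.Agent.T2C.H38

open MvPolynomial Pool.Agent.Gen Pool.Agent.Sharp Pool.Agent.Edge
open Pool.Agent.Sharp.H75 (DG Tup Hom)
open Pool.Agent.Edge.H65 (ssub)
open Pool.Agent.T2C.H8 (rs RC T3 HomC)

section

variable {K : Type} [Field K] {n c : ℕ} {d : Fin c → ℕ}

/-- the constant forms from the matrices -/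
noncomputable def mkDat (d : Fin c → ℕ) {N : ℕ} (T : Io n c d → Fin N → Fin N → ℤ) :
    Dat N n c where
  C p q m := ∑ I : MI n (d m - 2), monomial I.1 (T (Sum.inl ⟨m, I⟩) p q)
  A p q a m := ∑ I : MI n (d m - 1), monomial I.1 (T (Sum.inr (a, ⟨m, I⟩)) p q)

theorem mkDat_hm {N : ℕ} (T : Io n c d → Fin N → Fin N → ℤ) : (mkDat d T).Hm d where
  C p q m := IsHomogeneous.sum _ _ _ fun I _ => isHomogeneous_monomial _ (MI_deg I)
  A p q a m := IsHomogeneous.sum _ _ _ fun I _ => isHomogeneous_monomial _ (MI_deg I)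

theorem mon_cast (I : Fin (n + 1) →₀ ℕ) (z : ℤ) :
    MvPolynomial.map (Int.castRingHom K) (monomial I z) = (z : K) • monomial I (1 : K) := by
  rw [map_monomial, smul_monomial, smul_eq_mul, mul_one]
  rfl

theorem sum_eq {N : ℕ} (T : Io n c d → Fin N → Fin N → ℤ) (P : Fin 3 → Fin (n + 1) → K)
    (ξ : Fin 3 → MvPolynomial (Fin (n + 1)) K) (w : Fin N × Wx c → K) (p : Fin N) :
    ∑ j, w j • rs P (GV (mkDat d T) ξ j p) =
      ∑ i, ∑ q, (T i p q : K) • b0 d P (fun i => ssub P (ξ i)) i (fun v => w (q, v)) := by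
  classical
  set ζ : Fin 3 → MvPolynomial (Fin 3) K := fun i => ssub P (ξ i) with hζ
  funext m
  -- left side
  have hC : ∀ q, ssub P (MvPolynomial.map (Int.castRingHom K) ((mkDat d T).C p q m)) =
      ∑ I : MI n (d m - 2), (T (Sum.inl ⟨m, I⟩) p q : K) • ssub P (monomial I.1 (1 : K)) := by
    intro q
    simp only [mkDat, map_sum, mon_cast, map_smul]
  have hA : ∀ q a, ssub P (MvPolynomial.map (Int.castRingHom K) ((mkDat d T).A p q a m)) =
      ∑ I : MI n (d m - 1), (T (Sum.inr (a, ⟨m, I⟩)) p q : K) •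
        ssub P (monomial I.1 (1 : K)) := by
    intro q a
    simp only [mkDat, map_sum, mon_cast, map_smul]
  have hl : (∑ j, w j • rs P (GV (mkDat d T) ξ j p)) m =
      ∑ q, (∑ I : MI n (d m - 2), (T (Sum.inl ⟨m, I⟩) p q : K) •
        (ssub P (monomial I.1 (1 : K)) * cq c ζ fun v => w (q, v)) +
      ∑ a, ∑ I : MI n (d m - 1), (T (Sum.inr (a, ⟨m, I⟩)) p q : K) •
        (ssub P (monomial I.1 (1 : K)) * cl ζ a fun v => w (q, v))) := by
    rw [Finset.sum_apply, Fintype.sum_prod_type]
    refine Finset.sum_congr rfl fun q _ => ?_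
    rw [Fintype.sum_sum_type]
    congr 1
    · have h1 : ∑ I : MI n (d m - 2), (T (Sum.inl ⟨m, I⟩) p q : K) •
          (ssub P (monomial I.1 (1 : K)) * cq c ζ fun v => w (q, v)) =
          ssub P (MvPolynomial.map (Int.castRingHom K) ((mkDat d T).C p q m)) *
            cq c ζ fun v => w (q, v) := by
        rw [hC, Finset.sum_mul]
        exact Finset.sum_congr rfl fun I _ => (smul_mul_assoc _ _ _).symm
      rw [h1, cq_apply, Finset.mul_sum]
      refine Finset.sum_congr rfl fun v _ => ?_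
      rw [Pi.smul_apply, H8.rs_apply, GV, map_mul, ssub_q5, mul_smul_comm]
    · rw [Fintype.sum_prod_type]
      refine Finset.sum_congr rfl fun a _ => ?_
      have h1 : ∑ I : MI n (d m - 1), (T (Sum.inr (a, ⟨m, I⟩)) p q : K) •
          (ssub P (monomial I.1 (1 : K)) * cl ζ a fun v => w (q, v)) =
          ssub P (MvPolynomial.map (Int.castRingHom K) ((mkDat d T).A p q a m)) *
            cl ζ a fun v => w (q, v) := by
        rw [hA, Finset.sum_mul]
        exact Finset.sum_congr rfl fun I _ => (smul_mul_assoc _ _ _).symm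
      rw [h1, cl_apply, Finset.mul_sum]
      refine Finset.sum_congr rfl fun v _ => ?_
      rw [Pi.smul_apply, H8.rs_apply, GV, map_mul, mul_smul_comm]
  -- right side
  have hr1 : (∑ i : Σ m : Fin c, MI n (d m - 2), ∑ q, (T (Sum.inl i) p q : K) •
      b0 d P ζ (Sum.inl i) (fun v => w (q, v))) m =
      ∑ q, ∑ I : MI n (d m - 2), (T (Sum.inl ⟨m, I⟩) p q : K) •
        (ssub P (monomial I.1 (1 : K)) * cq c ζ fun v => w (q, v)) := by
    rw [Fintype.sum_sigma, Finset.sum_apply, Finset.sum_eq_single m]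
    · rw [Finset.sum_apply, Finset.sum_comm]
      refine Finset.sum_congr rfl fun I _ => ?_
      rw [Finset.sum_apply]
      refine Finset.sum_congr rfl fun q _ => ?_
      rw [Pi.smul_apply, b0_inl, Pi.single_eq_same]
    · intro m' _ hm
      rw [Finset.sum_apply]
      refine Finset.sum_eq_zero fun I _ => ?_
      rw [Finset.sum_apply]
      refine Finset.sum_eq_zero fun q _ => ?_
      rw [Pi.smul_apply, b0_inl, Pi.single_eq_of_ne (Ne.symm hm), smul_zero]
    · intro h
      exact absurd (Finset.mem_univ _) h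
  have hr2 : ∀ a : Fin c, (∑ i : Σ m : Fin c, MI n (d m - 1), ∑ q,
      (T (Sum.inr (a, i)) p q : K) • b0 d P ζ (Sum.inr (a, i)) (fun v => w (q, v))) m =
      ∑ q, ∑ I : MI n (d m - 1), (T (Sum.inr (a, ⟨m, I⟩)) p q : K) •
        (ssub P (monomial I.1 (1 : K)) * cl ζ a fun v => w (q, v)) := by
    intro a
    rw [Fintype.sum_sigma, Finset.sum_apply, Finset.sum_eq_single m]
    · rw [Finset.sum_apply, Finset.sum_comm]
      refine Finset.sum_congr rfl fun I _ => ?_
      rw [Finset.sum_apply]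
      refine Finset.sum_congr rfl fun q _ => ?_
      rw [Pi.smul_apply, b0_inr, Pi.single_eq_same]
    · intro m' _ hm
      rw [Finset.sum_apply]
      refine Finset.sum_eq_zero fun I _ => ?_
      rw [Finset.sum_apply]
      refine Finset.sum_eq_zero fun q _ => ?_
      rw [Pi.smul_apply, b0_inr, Pi.single_eq_of_ne (Ne.symm hm), smul_zero]
    · intro h
      exact absurd (Finset.mem_univ _) h
  rw [hl, Fintype.sum_sum_type, Pi.add_apply, hr1, Fintype.sum_prod_type, Finset.sum_apply]
  simp only [hr2]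
  rw [Finset.sum_add_distrib, Finset.sum_comm (s := (Finset.univ : Finset (Fin c)))]

theorem ssub_xi {x : Fin (n + 1) → K} {t : Fin 3 → Fin (n + 1)} {P : Fin 3 → Fin (n + 1) → K}
    (hP : ∀ i j, P i (t j) = if i = j then 1 else 0) (i : Fin 3) :
    ssub P (xi x t i) = ∑ a, C ((!![1, -x (t 1), -x (t 2); 0, 1, 0; 0, 0, 1] :
      Matrix (Fin 3) (Fin 3) K) a i) * X a := by
  unfold xi
  rw [ssub_lt]
  refine Finset.sum_congr rfl fun a _ => ?_
  congr 2
  rw [Finset.sum_eq_single a]
  · rw [hP, if_pos rfl, one_mul]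
  · intro b _ hb
    rw [hP, if_neg (Ne.symm hb), zero_mul]
  · intro h
    exact absurd (Finset.mem_univ _) h

theorem fr3 {x : Fin (n + 1) → K} {t : Fin 3 → Fin (n + 1)} {P : Fin 3 → Fin (n + 1) → K}
    (hP : ∀ i j, P i (t j) = if i = j then 1 else 0) (hx : x (t 0) = 1) :
    Fr3 (fun i => x (t i)) fun i => ssub P (xi x t i) := by
  have he : ∀ (z : Fin 3 → K) i, eval z (ssub P (xi x t i)) =
      ∑ a, (!![1, -x (t 1), -x (t 2); 0, 1, 0; 0, 0, 1] : Matrix (Fin 3) (Fin 3) K) a i * z a := by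
    intro z i
    rw [ssub_xi hP, map_sum]
    exact Finset.sum_congr rfl fun a _ => by rw [map_mul, eval_C, eval_X]
  refine ⟨fun i => H65.ssub_hom P (lt_hom _ _), fun i => ?_, fun s => ?_⟩
  · rw [he, Fin.sum_univ_three]
    fin_cases i
    · simp [hx]
    · simp [hx]
  · refine ⟨![s 0, s 1 + x (t 1) * s 0, s 2 + x (t 2) * s 0], fun i => ?_⟩
    rw [he, Fin.sum_univ_three]
    fin_cases i
    · simp
    · simp
    · simp

theorem det_Mt_upd {t : Fin 3 → Fin (n + 1)} {P : Fin 3 → Fin (n + 1) → K}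
    (hP : ∀ i j, P i (t j) = if i = j then 1 else 0) (i : Fin 3) (f : Fin (n + 1)) :
    (Mt P (Function.update t i f)).det = P i f := by
  have h : Mt P (Function.update t i f) =
      Matrix.updateCol (1 : Matrix (Fin 3) (Fin 3) K) i fun a => P a f := by
    ext a b
    rw [Mt, Matrix.of_apply, Matrix.updateCol_apply]
    by_cases hb : b = i
    · rw [if_pos hb, hb, Function.update_self]
    · rw [if_neg hb, Function.update_of_ne hb, hP, Matrix.one_apply]
  rw [h, ← Matrix.cramer_apply, Matrix.cramer_one]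
  rfl

/-- **Row DET.** -/
theorem det : DetStatement := by
  intro hBu Ω _ _ k Γ _ S n c d D x t P hty hS hp hR hH
  obtain ⟨N, T, hN, hinj⟩ := blk hBu hty hR hH hp.Pt (fr3 hp.Pt hp.x0)
  have hcard : Fintype.card (Cx N c) = Fintype.card (Rw N n) := by
    simp only [Cx, Rw, Wx, K7, Fintype.card_sum, Fintype.card_prod, Fintype.card_fin,
      Fintype.card_unit, hty.hn]
    ring
  let e : Cx N c ≃ Rw N n := Fintype.equivOfCardEq hcard
  have hE := mkDat_hm T
  have hne := nz e hE hty.two hp fun w hw => by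
    have h1 := hinj (fun q v => w (q, v)) fun p => by
      have h2 := hw p
      rw [sum_eq] at h2
      exact h2
    funext j
    exact congrFun (congrFun h1 j.1) j.2
  set Δ := Dl e D ![x, P 1, P 2] (mkDat d T) (xi x t) (xi x t) with hΔ
  have hk : ∀ τ : Fin 3 → Fin (n + 1), Δ * (Mt P τ).det ^ N ∈ k := by
    intro τ
    refine S.mem ∅ (Fintype.card (Cx N c)) _ (by simp) fun p => ?_
    rw [Finset.prod_empty, mul_one]
    exact place hty.hn hty.sum e D hE hty.two hp (S.v p) (S.one_le p) (hS.hdel p) τ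
  have hΔk : Δ ∈ k := by
    have h1 := hk t
    have h2 : Mt P t = 1 := by
      ext i j
      rw [Mt, Matrix.of_apply, hp.Pt, Matrix.one_apply]
    rwa [h2, Matrix.det_one, one_pow, mul_one] at h1
  intro i f
  rw [← det_Mt_upd hp.Pt i f]
  set z := (Mt P (Function.update t i f)).det with hz
  have hzk : z ^ N ∈ k := by
    have h1 := k.mul_mem (k.inv_mem hΔk) (hk (Function.update t i f))
    rwa [← mul_assoc, inv_mul_cancel₀ hne, one_mul] at h1
  refine hS.kalg z (Polynomial.X ^ N - Polynomial.C (z ^ N)) ?_ (fun j => ?_) (by simp)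
  · exact (Polynomial.monic_X_pow_sub_C _ hN.ne').ne_zero
  · rw [Polynomial.coeff_sub, Polynomial.coeff_X_pow, Polynomial.coeff_C]
    refine k.sub_mem ?_ ?_
    · split_ifs
      · exact k.one_mem
      · exact k.zero_mem
    · split_ifs
      · exact hzk
      · exact k.zero_mem

end

end Pool.Agent.T2C.H38
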