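import Pool.Agent.Lib.MP_c7af3c_ag.T2C.H38.Place
import Pool.Agent.Lib.MP_c7af3c_ag.T2C.IfaceB

/-! Row C_P_DET: the block from the blow-up theorem. -/

set_option autoImplicit false

namespace Pool.Agent.T2C.H38

open MvPolynomial Pool.Agent.Gen Pool.Agent.Sharp Pool.Agent.Edge
open Pool.Agent.Sharp.H75 (DG Tup Hom)
open Pool.Agent.Edge.H65 (ssub)
open Pool.Agent.T2C.H8 (rs RC T3 HomC)

/-- exponents -/
abbrev MI (n r : ℕ) : Type :=
  {I : Fin (n + 1) →₀ ℕ // I ∈ Finset.finsuppAntidiag (Finset.univ : Finset (Fin (n + 1))) r}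

/-- the indices of the bilinear maps -/
abbrev Io (n c : ℕ) (d : Fin c → ℕ) : Type :=
  (Σ m : Fin c, MI n (d m - 2)) ⊕ (Fin c × Σ m : Fin c, MI n (d m - 1))

theorem MI_deg {n r : ℕ} (I : MI n r) : I.1.degree = r := by
  have h := I.2
  rw [Finset.mem_finsuppAntidiag] at h
  rw [Finsupp.degree_eq_sum]
  exact h.1

section

variable {K : Type} [Field K] {n c : ℕ} {d : Fin c → ℕ}

/-- a form of degree `r` is a combination of monomials -/
theorem form_eq {r : ℕ} {G : MvPolynomial (Fin (n + 1)) K} (hG : G.IsHomogeneous r) :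
    G = ∑ I : MI n r, coeff I.1 G • monomial I.1 (1 : K) := by
  classical
  have h1 : ∑ I : MI n r, coeff I.1 G • monomial I.1 (1 : K) =
      ∑ I ∈ Finset.finsuppAntidiag (Finset.univ : Finset (Fin (n + 1))) r,
        coeff I G • monomial I (1 : K) :=
    Finset.sum_coe_sort (Finset.finsuppAntidiag (Finset.univ : Finset (Fin (n + 1))) r)
      fun I => coeff I G • monomial I (1 : K)
  rw [h1]
  conv_lhs => rw [G.as_sum]
  have h2 : G.support ⊆ Finset.finsuppAntidiag (Finset.univ : Finset (Fin (n + 1))) r := by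
    intro I hI
    rw [Finset.mem_finsuppAntidiag]
    refine ⟨?_, Finset.subset_univ _⟩
    have := hG (mem_support_iff.1 hI)
    rw [← this]
    simp [Finsupp.weight_apply, Finsupp.sum_fintype]
  refine (Finset.sum_subset h2 fun I _ hI => ?_).trans ?_
  · rw [notMem_support_iff.1 hI, monomial_zero]
  · refine Finset.sum_congr rfl fun I _ => ?_
    rw [smul_monomial, smul_eq_mul, mul_one]

theorem form3_eq {t : Fin 3 → Fin (n + 1)} {P : Fin 3 → Fin (n + 1) → K}
    (hP : ∀ i j, P i (t j) = if i = j then 1 else 0) {r : ℕ} {b : MvPolynomial (Fin 3) K}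
    (hb : b.IsHomogeneous r) :
    b = ∑ I : MI n r, coeff I.1 (rename t b) • ssub P (monomial I.1 (1 : K)) := by
  have h1 := congrArg (ssub P) (form_eq (n := n) (hb.rename_isHomogeneous (f := t)))
  rw [H8.ssub_rename hP, map_sum] at h1
  rw [h1]
  refine Finset.sum_congr rfl fun I _ => ?_
  rw [← h1, map_smul]

/-- the conic part -/
noncomputable def cq (c : ℕ) (ζ : Fin 3 → MvPolynomial (Fin 3) K) :
    (Wx c → K) →ₗ[K] MvPolynomial (Fin 3) K :=
  (Fintype.linearCombination K (q5 ζ)).comp (LinearMap.funLeft K K Sum.inl)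

/-- the line parts -/
noncomputable def cl (ζ : Fin 3 → MvPolynomial (Fin 3) K) (a : Fin c) :
    (Wx c → K) →ₗ[K] MvPolynomial (Fin 3) K :=
  (Fintype.linearCombination K fun i : Fin 2 => ζ i.succ).comp
    (LinearMap.funLeft K K fun i => Sum.inr (a, i))

theorem cq_apply (ζ : Fin 3 → MvPolynomial (Fin 3) K) (u : Wx c → K) :
    cq c ζ u = ∑ w, u (Sum.inl w) • q5 ζ w := rfl

theorem cl_apply (ζ : Fin 3 → MvPolynomial (Fin 3) K) (a : Fin c) (u : Wx c → K) :
    cl ζ a u = ∑ i : Fin 2, u (Sum.inr (a, i)) • ζ i.succ := rfl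

/-- the bilinear maps -/
noncomputable def b0 (d : Fin c → ℕ) (P : Fin 3 → Fin (n + 1) → K)
    (ζ : Fin 3 → MvPolynomial (Fin 3) K) : Io n c d → (Wx c → K) →ₗ[K] T3 K c
  | Sum.inl i => (LinearMap.single K (fun _ : Fin c => MvPolynomial (Fin 3) K) i.1).comp
      ((LinearMap.mulLeft K (ssub P (monomial i.2.1 (1 : K)))).comp (cq c ζ))
  | Sum.inr i => (LinearMap.single K (fun _ : Fin c => MvPolynomial (Fin 3) K) i.2.1).comp
      ((LinearMap.mulLeft K (ssub P (monomial i.2.2.1 (1 : K)))).comp (cl ζ i.1))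

theorem b0_inl (P : Fin 3 → Fin (n + 1) → K) (ζ : Fin 3 → MvPolynomial (Fin 3) K)
    (i : Σ m : Fin c, MI n (d m - 2)) (u : Wx c → K) :
    b0 d P ζ (Sum.inl i) u = Pi.single i.1 (ssub P (monomial i.2.1 (1 : K)) * cq c ζ u) := rfl

theorem b0_inr (P : Fin 3 → Fin (n + 1) → K) (ζ : Fin 3 → MvPolynomial (Fin 3) K)
    (i : Fin c × Σ m : Fin c, MI n (d m - 1)) (u : Wx c → K) :
    b0 d P ζ (Sum.inr i) u = Pi.single i.2.1 (ssub P (monomial i.2.2.1 (1 : K)) * cl ζ i.1 u) :=
  rfl

/-- the polynomials whose multiples are in `T` -/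
def cln (r : Fin c → ℕ) (T : Submodule K (T3 K c)) : Submodule K (MvPolynomial (Fin 3) K) where
  carrier := {a | ∀ b ∈ ST K r, (fun m => a * b m : T3 K c) ∈ T}
  add_mem' := by
    intro a a' ha ha' b hb
    have h := T.add_mem (ha b hb) (ha' b hb)
    have e : (fun m => (a + a') * b m : T3 K c) = (fun m => a * b m) + fun m => a' * b m := by
      funext m
      rw [Pi.add_apply, add_mul]
    rw [e]
    exact h
  zero_mem' := by
    intro b _
    have e : (fun m => 0 * b m : T3 K c) = 0 := by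
      funext m
      rw [zero_mul]
      rfl
    rw [e]
    exact T.zero_mem
  smul_mem' := by
    intro s a ha b hb
    have h := T.smul_mem s (ha b hb)
    have e : (fun m => (s • a) * b m : T3 K c) = s • fun m => a * b m := by
      funext m
      rw [Pi.smul_apply, smul_mul_assoc]
    rw [e]
    exact h

theorem SP_le {V : Submodule K (MvPolynomial (Fin 3) K)} {r : Fin c → ℕ}
    {T : Submodule K (T3 K c)} (h : V ≤ cln r T) : SP V r ≤ T := by
  unfold SP
  rw [Submodule.span_le]
  rintro g ⟨a, ha, b, hb, rfl⟩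
  exact h ha b hb

variable {t : Fin 3 → Fin (n + 1)} {P : Fin 3 → Fin (n + 1) → K}
  {ζ : Fin 3 → MvPolynomial (Fin 3) K}

theorem cq_le (hP : ∀ i j, P i (t j) = if i = j then 1 else 0) (U' : Submodule K (Wx c → K)) :
    U'.map (cq c ζ) ≤ cln (fun m => d m - 2) (⨆ i, U'.map (b0 d P ζ i)) := by
  classical
  rintro _ ⟨u, hu, rfl⟩ b hb
  have h1 : (fun m => cq c ζ u * b m : T3 K c) =
      ∑ m, ∑ I : MI n (d m - 2), coeff I.1 (rename t (b m)) • b0 d P ζ (Sum.inl ⟨m, I⟩) u := by
    have h2 : (fun m => cq c ζ u * b m : T3 K c) = ∑ m, Pi.single m (cq c ζ u * b m) :=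
      (Finset.univ_sum_single _).symm
    rw [h2]
    refine Finset.sum_congr rfl fun m _ => ?_
    have h3 := form3_eq (n := n) hP (hb m)
    have h4 : cq c ζ u * b m = ∑ I : MI n (d m - 2), coeff I.1 (rename t (b m)) •
        (ssub P (monomial I.1 (1 : K)) * cq c ζ u) := by
      conv_lhs => rw [h3]
      rw [Finset.mul_sum]
      refine Finset.sum_congr rfl fun I _ => ?_
      rw [mul_smul_comm, mul_comm]
    rw [h4]
    have h5 := map_sum (LinearMap.single K (fun _ : Fin c => MvPolynomial (Fin 3) K) m)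
      (fun I : MI n (d m - 2) => coeff I.1 (rename t (b m)) •
        (ssub P (monomial I.1 (1 : K)) * cq c ζ u)) Finset.univ
    rw [LinearMap.single_apply] at h5
    rw [h5]
    refine Finset.sum_congr rfl fun I _ => ?_
    rw [map_smul]
    rfl
  rw [h1]
  refine Submodule.sum_mem _ fun m _ => Submodule.sum_mem _ fun I _ => Submodule.smul_mem _ _ ?_
  exact Submodule.mem_iSup_of_mem (Sum.inl ⟨m, I⟩) ⟨u, hu, rfl⟩

theorem cl_le (hP : ∀ i j, P i (t j) = if i = j then 1 else 0) (U' : Submodule K (Wx c → K))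
    (a : Fin c) :
    U'.map (cl ζ a) ≤ cln (fun m => d m - 1) (⨆ i, U'.map (b0 d P ζ i)) := by
  classical
  rintro _ ⟨u, hu, rfl⟩ b hb
  have h1 : (fun m => cl ζ a u * b m : T3 K c) =
      ∑ m, ∑ I : MI n (d m - 1), coeff I.1 (rename t (b m)) •
        b0 d P ζ (Sum.inr (a, ⟨m, I⟩)) u := by
    have h2 : (fun m => cl ζ a u * b m : T3 K c) = ∑ m, Pi.single m (cl ζ a u * b m) :=
      (Finset.univ_sum_single _).symm
    rw [h2]
    refine Finset.sum_congr rfl fun m _ => ?_
    have h3 := form3_eq (n := n) hP (hb m)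
    have h4 : cl ζ a u * b m = ∑ I : MI n (d m - 1), coeff I.1 (rename t (b m)) •
        (ssub P (monomial I.1 (1 : K)) * cl ζ a u) := by
      conv_lhs => rw [h3]
      rw [Finset.mul_sum]
      refine Finset.sum_congr rfl fun I _ => ?_
      rw [mul_smul_comm, mul_comm]
    rw [h4]
    have h5 := map_sum (LinearMap.single K (fun _ : Fin c => MvPolynomial (Fin 3) K) m)
      (fun I : MI n (d m - 1) => coeff I.1 (rename t (b m)) •
        (ssub P (monomial I.1 (1 : K)) * cl ζ a u)) Finset.univ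
    rw [LinearMap.single_apply] at h5
    rw [h5]
    refine Finset.sum_congr rfl fun I _ => ?_
    rw [map_smul]
    rfl
  rw [h1]
  refine Submodule.sum_mem _ fun m _ => Submodule.sum_mem _ fun I _ => Submodule.smul_mem _ _ ?_
  exact Submodule.mem_iSup_of_mem (Sum.inr (a, ⟨m, I⟩)) ⟨u, hu, rfl⟩

/-- dimension of the image in the quotient -/
theorem fr_map {V : Type} [AddCommGroup V] [Module K V] {R A : Submodule K V} (h : R ≤ A)
    [FiniteDimensional K A] :
    Module.finrank K (A.map R.mkQ) + Module.finrank K R = Module.finrank K A := by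
  have h1 := LinearMap.finrank_range_add_finrank_ker (R.mkQ.comp A.subtype)
  rw [LinearMap.range_comp, Submodule.range_subtype] at h1
  have h2 : LinearMap.ker (R.mkQ.comp A.subtype) = R.comap A.subtype := by
    rw [LinearMap.ker_comp, Submodule.ker_mkQ]
  rw [h2, (Submodule.comapSubtypeEquivOfLe h).finrank_eq] at h1
  exact h1

end

end Pool.Agent.T2C.H38
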