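import Pool.Agent.Lib.MP_c7af3c_ag.T2C.H38.Blk

/-! Row C_P_DET: Hall's condition and the blow-up of the block. -/

set_option autoImplicit false

namespace Pool.Agent.T2C.H38

open MvPolynomial Pool.Agent.Gen Pool.Agent.Sharp Pool.Agent.Edge
open Pool.Agent.Sharp.H75 (DG Tup Hom)
open Pool.Agent.Edge.H65 (ssub)
open Pool.Agent.T2C.H8 (rs RC T3 HomC)

section

variable {K : Type} [Field K] {n c : ℕ} {d : Fin c → ℕ}

/-- three forms with all values -/
structure Fr3 (y : Fin 3 → K) (ζ : Fin 3 → MvPolynomial (Fin 3) K) : Prop where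
  hom : ∀ i, (ζ i).IsHomogeneous 1
  van : ∀ i : Fin 2, eval y (ζ i.succ) = 0
  val : ∀ s : Fin 3 → K, ∃ z, ∀ i, eval z (ζ i) = s i

theorem q5_inj {y : Fin 3 → K} {ζ : Fin 3 → MvPolynomial (Fin 3) K} (hζ : Fr3 y ζ)
    {a : Fin 2 ⊕ Fin 3 → K} (h : ∑ w, a w • q5 ζ w = 0) : a = 0 := by
  have key : ∀ s : Fin 3 → K, a (Sum.inl 0) * (s 0 * s 1) + a (Sum.inl 1) * (s 0 * s 2) +
      (a (Sum.inr 0) * (s 1 * s 1) + a (Sum.inr 1) * (s 1 * s 2) +
        a (Sum.inr 2) * (s 2 * s 2)) = 0 := by
    intro s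
    obtain ⟨z, hz⟩ := hζ.val s
    have h1 := congrArg (eval z) h
    rw [map_sum, map_zero, Fintype.sum_sum_type, Fin.sum_univ_two, Fin.sum_univ_three] at h1
    simp only [smul_eval, q5, map_mul, hz, Fin.succ_zero_eq_one, Fin.succ_one_eq_two,
      Matrix.cons_val_zero, Matrix.cons_val_one, Matrix.cons_val] at h1
    exact h1
  have k1 := key ![0, 1, 0]
  have k2 := key ![0, 0, 1]
  have k3 := key ![0, 1, 1]
  have k4 := key ![1, 1, 0]
  have k5 := key ![1, 0, 1]
  simp only [Matrix.cons_val_zero, Matrix.cons_val_one, Matrix.cons_val, mul_one, mul_zero,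
    add_zero, zero_add] at k1 k2 k3 k4 k5
  rw [k1, k2] at k3
  rw [k1] at k4
  rw [k2] at k5
  simp only [add_zero, zero_add] at k3 k4 k5
  funext w
  rcases w with i | j
  · fin_cases i
    · exact k4
    · exact k5
  · fin_cases j
    · exact k1
    · exact k3
    · exact k2

theorem l2_inj {y : Fin 3 → K} {ζ : Fin 3 → MvPolynomial (Fin 3) K} (hζ : Fr3 y ζ)
    {a : Fin 2 → K} (h : ∑ i, a i • ζ i.succ = 0) : a = 0 := by
  have key : ∀ s : Fin 3 → K, a 0 * s 1 + a 1 * s 2 = 0 := by
    intro s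
    obtain ⟨z, hz⟩ := hζ.val s
    have h1 := congrArg (eval z) h
    rw [map_sum, map_zero, Fin.sum_univ_two] at h1
    simp only [smul_eval, hz, Fin.succ_zero_eq_one, Fin.succ_one_eq_two] at h1
    exact h1
  have k1 := key ![0, 1, 0]
  have k2 := key ![0, 0, 1]
  simp only [Matrix.cons_val_zero, Matrix.cons_val_one, Matrix.cons_val, mul_one, mul_zero,
    add_zero, zero_add] at k1 k2
  funext i
  fin_cases i
  · exact k1
  · exact k2

theorem cq_hom {y : Fin 3 → K} {ζ : Fin 3 → MvPolynomial (Fin 3) K} (hζ : Fr3 y ζ)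
    (u : Wx c → K) : (cq c ζ u).IsHomogeneous 2 ∧ eval y (cq c ζ u) = 0 := by
  have h1 : eval y (ζ 1) = 0 := hζ.van 0
  have h2 : eval y (ζ 2) = 0 := hζ.van 1
  rw [cq_apply]
  constructor
  · refine IsHomogeneous.sum _ _ _ fun w _ => ?_
    exact (homogeneousSubmodule (Fin 3) K 2).smul_mem _ (q5_hom hζ.hom w)
  · rw [map_sum]
    refine Finset.sum_eq_zero fun w _ => ?_
    rw [smul_eval]
    rcases w with i | j
    · rw [q5, map_mul, hζ.van i, mul_zero, mul_zero]
    · fin_cases j <;> simp [q5, h1, h2]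

theorem cl_hom {y : Fin 3 → K} {ζ : Fin 3 → MvPolynomial (Fin 3) K} (hζ : Fr3 y ζ) (a : Fin c)
    (u : Wx c → K) : (cl ζ a u).IsHomogeneous 1 ∧ eval y (cl ζ a u) = 0 := by
  rw [cl_apply]
  constructor
  · refine IsHomogeneous.sum _ _ _ fun i _ => ?_
    exact (homogeneousSubmodule (Fin 3) K 1).smul_mem _ (hζ.hom _)
  · rw [map_sum]
    refine Finset.sum_eq_zero fun i _ => ?_
    rw [smul_eval, hζ.van i, mul_zero]

/-- the values at the point -/
noncomputable def ev (c : ℕ) (y : Fin 3 → K) : T3 K c →ₗ[K] (Fin c → K) :=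
  LinearMap.pi fun m => (aeval y : MvPolynomial (Fin 3) K →ₐ[K] K).toLinearMap.comp
    (LinearMap.proj m)

theorem ev_apply (y : Fin 3 → K) (g : T3 K c) (m : Fin c) : ev c y g m = eval y (g m) := by
  unfold ev
  rw [LinearMap.pi_apply, LinearMap.comp_apply, LinearMap.proj_apply, AlgHom.toLinearMap_apply,
    aeval_eq_eval]

/-- the tuples which vanish at the point -/
noncomputable def STy (K : Type) [Field K] {c : ℕ} (d : Fin c → ℕ) (y : Fin 3 → K) :
    Submodule K (T3 K c) := ST K d ⊓ LinearMap.ker (ev c y)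

theorem STy_le (y : Fin 3 → K) : STy K d y ≤ ST K d := inf_le_left

theorem mem_STy {y : Fin 3 → K} {g : T3 K c} :
    g ∈ STy K d y ↔ (∀ m, (g m).IsHomogeneous (d m)) ∧ ∀ m, eval y (g m) = 0 := by
  unfold STy
  rw [Submodule.mem_inf, LinearMap.mem_ker, mem_ST]
  refine and_congr_right fun _ => ?_
  constructor
  · intro h m
    rw [← ev_apply, h]
    rfl
  · intro h
    funext m
    rw [ev_apply, h]
    rfl

theorem fr_STy {y : Fin 3 → K} (hy : y 0 = 1) [FiniteDimensional K (ST K d)] :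
    Module.finrank K (STy K d y) + c = Module.finrank K (ST K d) := by
  classical
  have h1 := LinearMap.finrank_range_add_finrank_ker ((ev c y).comp (ST K d).subtype)
  have h2 : LinearMap.range ((ev c y).comp (ST K d).subtype) = ⊤ := by
    rw [LinearMap.range_eq_top]
    intro a
    refine ⟨⟨fun m => C (a m) * X 0 ^ d m, fun m => ?_⟩, ?_⟩
    · have h3 := (isHomogeneous_C (Fin 3) (a m)).mul ((isHomogeneous_X K (0 : Fin 3)).pow (d m))
      rwa [zero_add, one_mul] at h3
    · funext m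
      rw [LinearMap.comp_apply, ev_apply]
      simp [hy]
  have h3 : LinearMap.ker ((ev c y).comp (ST K d).subtype) =
      (STy K d y).comap (ST K d).subtype := by
    ext g
    rw [LinearMap.mem_ker, LinearMap.comp_apply, Submodule.mem_comap, STy, Submodule.mem_inf,
      LinearMap.mem_ker]
    exact ⟨fun h => ⟨g.2, h⟩, fun h => h.2⟩
  rw [h2, finrank_top, Module.finrank_fin_fun, h3,
    (Submodule.comapSubtypeEquivOfLe (STy_le (d := d) y)).finrank_eq] at h1
  omega

variable {t : Fin 3 → Fin (n + 1)} {P : Fin 3 → Fin (n + 1) → K}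
  {y : Fin 3 → K} {ζ : Fin 3 → MvPolynomial (Fin 3) K}

theorem b0_mem (h2 : ∀ m, 2 ≤ d m) (hζ : Fr3 y ζ) (i : Io n c d) (u : Wx c → K) :
    b0 d P ζ i u ∈ STy K d y := by
  classical
  rw [mem_STy]
  have hs : ∀ r (I : MI n r), (ssub P (monomial I.1 (1 : K))).IsHomogeneous r := fun r I =>
    H65.ssub_hom P (isHomogeneous_monomial _ (MI_deg I))
  rcases i with ⟨m, I⟩ | ⟨a, m, I⟩
  · rw [b0_inl]
    constructor
    · intro m'
      by_cases hm : m' = m
      · subst hm
        rw [Pi.single_eq_same]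
        have h3 := (hs _ I).mul (cq_hom hζ u).1
        rwa [Nat.sub_add_cancel (h2 m')] at h3
      · rw [Pi.single_eq_of_ne hm]
        exact isHomogeneous_zero _ _ _
    · intro m'
      by_cases hm : m' = m
      · subst hm
        rw [Pi.single_eq_same, map_mul, (cq_hom hζ u).2, mul_zero]
      · rw [Pi.single_eq_of_ne hm, map_zero]
  · rw [b0_inr]
    constructor
    · intro m'
      by_cases hm : m' = m
      · subst hm
        rw [Pi.single_eq_same]
        have h3 := (hs _ I).mul (cl_hom hζ a u).1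
        rwa [Nat.sub_add_cancel ((h2 m').trans' one_le_two)] at h3
      · rw [Pi.single_eq_of_ne hm]
        exact isHomogeneous_zero _ _ _
    · intro m'
      by_cases hm : m' = m
      · subst hm
        rw [Pi.single_eq_same, map_mul, (cl_hom hζ a u).2, mul_zero]
      · rw [Pi.single_eq_of_ne hm, map_zero]

/-- the source dimension -/
theorem fr_U (hζ : Fr3 y ζ) (U' : Submodule K (Wx c → K)) :
    Module.finrank K U' ≤ Module.finrank K (U'.map (cq c ζ)) +
      c * Module.finrank K (⨆ a, U'.map (cl ζ a) : Submodule K (MvPolynomial (Fin 3) K)) := by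
  set Q' := U'.map (cq c ζ) with hQ'
  set L' : Submodule K (MvPolynomial (Fin 3) K) := ⨆ a, U'.map (cl ζ a) with hL'
  let φ : U' →ₗ[K] Q' × (Fin c → L') := LinearMap.prod
    (((cq c ζ).comp U'.subtype).codRestrict Q' fun u => ⟨u, u.2, rfl⟩)
    (LinearMap.pi fun a => ((cl ζ a).comp U'.subtype).codRestrict L' fun u =>
      Submodule.mem_iSup_of_mem a ⟨u, u.2, rfl⟩)
  have hφ : Function.Injective φ := by
    rw [← LinearMap.ker_eq_bot, LinearMap.ker_eq_bot']
    intro u hu
    have e1 : (((φ u).1 : Q') : MvPolynomial (Fin 3) K) = cq c ζ u := rfl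
    have e2 : ∀ a : Fin c, (((φ u).2 a : L') : MvPolynomial (Fin 3) K) = cl ζ a u.1 :=
      fun a => rfl
    have h1 : cq c ζ u = 0 := by
      rw [← e1, hu, Prod.fst_zero, ZeroMemClass.coe_zero]
    have h2 : ∀ a : Fin c, cl ζ a u.1 = 0 := fun a => by
      rw [← e2, hu, Prod.snd_zero, Pi.zero_apply, ZeroMemClass.coe_zero]
    apply Subtype.ext
    funext w
    rcases w with w | ⟨a, i⟩
    · exact congrFun (q5_inj hζ (a := fun w => u.1 (Sum.inl w)) h1) w
    · exact congrFun (l2_inj hζ (a := fun i => u.1 (Sum.inr (a, i))) (h2 a)) i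
  have h3 := LinearMap.finrank_le_finrank_of_injective hφ
  rwa [Module.finrank_prod, Module.finrank_pi_fintype, Finset.sum_const, Finset.card_univ,
    Fintype.card_fin, smul_eq_mul] at h3

/-- **The block.** -/
theorem blk [CharZero K] (hBu : BuStatement) (hty : Ty n c d) {R : Submodule K (T3 K c)}
    (hR : RT d y R) (hH : Hall d y R) (hP : ∀ i j, P i (t j) = if i = j then 1 else 0)
    (hζ : Fr3 y ζ) :
    ∃ (N : ℕ) (T : Io n c d → Fin N → Fin N → ℤ), 0 < N ∧ ∀ u : Fin N → Wx c → K,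
      (∀ p, ∑ i, ∑ q, (T i p q : K) • b0 d P ζ i (u q) ∈ R) → u = 0 := by
  classical
  have hfST : FiniteDimensional K (ST K d) := by
    apply FiniteDimensional.of_finrank_pos
    rw [← hR.dim]
    omega
  have hRy : R ≤ STy K d y := fun g hg => mem_STy.2 ⟨hR.le hg, hR.van g hg⟩
  have hyS : STy K d y ≤ ST K d := inf_le_left
  haveI hfSy : FiniteDimensional K (STy K d y) := Submodule.finiteDimensional_of_le hyS
  have hfR : FiniteDimensional K R := Submodule.finiteDimensional_of_le hRy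
  let Qt : Submodule K (T3 K c ⧸ R) := (STy K d y).map R.mkQ
  haveI hfQ : FiniteDimensional K Qt := inferInstance
  let b : Io n c d → (Wx c → K) →ₗ[K] Qt := fun i =>
    (R.mkQ.comp (b0 d P ζ i)).codRestrict Qt fun u => ⟨_, b0_mem hty.two hζ i u, rfl⟩
  have hfr : Module.finrank K (Wx c → K) = Module.finrank K Qt := by
    have h1 := fr_map hRy
    have h2 := fr_STy (d := d) hR.y0
    have h3 := hR.dim
    rw [Module.finrank_fintype_fun_eq_card]
    have h4 : Fintype.card (Wx c) = 2 + 3 + c * 2 := by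
      simp [Wx]
    rw [h4]
    change _ = Module.finrank K ((STy K d y).map R.mkQ)
    omega
  have hHall : ∀ U' : Submodule K (Wx c → K), Module.finrank K U' ≤
      Module.finrank K (⨆ i, U'.map (b i) : Submodule K Qt) := by
    intro U'
    let Q' := U'.map (cq c ζ)
    let L' : Submodule K (MvPolynomial (Fin 3) K) := ⨆ a, U'.map (cl ζ a)
    have h1 : Module.finrank K U' ≤ Module.finrank K Q' + c * Module.finrank K L' := fr_U hζ U'
    have h2 := hH Q' L' (by
      rintro _ ⟨u, _, rfl⟩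
      exact cq_hom hζ u) (by
      intro l hl
      have h3 : L' ≤ homogeneousSubmodule (Fin 3) K 1 ⊓
          LinearMap.ker (aeval y : MvPolynomial (Fin 3) K →ₐ[K] K).toLinearMap := by
        refine iSup_le fun a => ?_
        rintro _ ⟨u, _, rfl⟩
        refine ⟨(cl_hom hζ a u).1, ?_⟩
        change cl ζ a u ∈ LinearMap.ker (aeval y : MvPolynomial (Fin 3) K →ₐ[K] K).toLinearMap
        rw [LinearMap.mem_ker, AlgHom.toLinearMap_apply, aeval_eq_eval]
        exact (cl_hom hζ a u).2
      have h4 := h3 hl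
      refine ⟨h4.1, ?_⟩
      have h5 := h4.2
      rw [SetLike.mem_coe, LinearMap.mem_ker, AlgHom.toLinearMap_apply, aeval_eq_eval] at h5
      exact h5)
    let T : Submodule K (T3 K c) := ⨆ i, U'.map (b0 d P ζ i)
    have h3 : SP Q' (fun m => d m - 2) ⊔ SP L' (fun m => d m - 1) ≤ T :=
      sup_le (SP_le (cq_le hP U')) (SP_le (iSup_le fun a => cl_le hP U' a))
    have hTy : T ≤ STy K d y := by
      refine iSup_le fun i => ?_
      rintro _ ⟨u, _, rfl⟩
      exact b0_mem hty.two hζ i u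
    have hRT : R ⊔ T ≤ STy K d y := sup_le hRy hTy
    haveI : FiniteDimensional K (R ⊔ T : Submodule K (T3 K c)) :=
      Submodule.finiteDimensional_of_le hRT
    have h4 := fr_map (le_sup_left : R ≤ R ⊔ T)
    have h5 : (R ⊔ T).map R.mkQ = (⨆ i, U'.map (b i) : Submodule K Qt).map Qt.subtype := by
      rw [Submodule.map_sup]
      rw [Submodule.mkQ_map_self, bot_sup_eq]
      rw [Submodule.map_iSup, Submodule.map_iSup]
      congr 1
      funext i
      rw [← Submodule.map_comp, ← Submodule.map_comp]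
      rfl
    rw [h5, Submodule.finrank_map_subtype_eq] at h4
    have h6 : Module.finrank K (R ⊔ (SP Q' (fun m => d m - 2) ⊔ SP L' (fun m => d m - 1)) :
        Submodule K (T3 K c)) ≤ Module.finrank K (R ⊔ T : Submodule K (T3 K c)) :=
      Submodule.finrank_mono (sup_le_sup_left h3 R)
    omega
  obtain ⟨N, T, hN, hbij⟩ := hBu K (Io n c d) (Wx c → K) Qt b hfr hHall
  refine ⟨N, T, hN, fun u hu => ?_⟩
  apply hbij.1
  funext p
  have h1 : ∀ u' : Fin N → Wx c → K, ((∑ i, ∑ q, (T i p q : K) • b i (u' q) : Qt) : T3 K c ⧸ R) =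
      R.mkQ (∑ i, ∑ q, (T i p q : K) • b0 d P ζ i (u' q)) := by
    intro u'
    rw [map_sum, AddSubmonoidClass.coe_finsetSum]
    refine Finset.sum_congr rfl fun i _ => ?_
    rw [map_sum, AddSubmonoidClass.coe_finsetSum]
    refine Finset.sum_congr rfl fun q _ => ?_
    rw [map_smul]
    rfl
  apply Subtype.ext
  rw [h1, h1]
  have h2 : R.mkQ (∑ i, ∑ q, (T i p q : K) • b0 d P ζ i (u q)) = 0 := by
    rw [← LinearMap.mem_ker, Submodule.ker_mkQ]
    exact hu p
  rw [h2]
  simp

end

end Pool.Agent.T2C.H38
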