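import Pool.Agent.Lib.MP_c7af3c_ag.T2C.H38.LocF
import Pool.Agent.Lib.MP_c7af3c_ag.T2C.H38.Adapt
import Pool.Agent.Lib.MP_c7af3c_ag.T2.H54.SizeG

/-! Row C_P_DET: the estimate at one place. -/

set_option autoImplicit false

namespace Pool.Agent.T2C.H38

open MvPolynomial Pool.Agent.Gen Pool.Agent.Sharp Pool.Agent.Edge
open Pool.Agent.Sharp.H75 (DG Tup Hom)
open Pool.Agent.Edge.H65 (ssub)

section

variable {L : Type} [Field L] {Γ : Type} [LinearOrderedCommGroupWithZero Γ]
  (v : Valuation L Γ) {σ : Type}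

/-- integral coefficients -/
def IntP (G : MvPolynomial σ L) : Prop := ∀ I, v (coeff I G) ≤ 1

variable {v}

theorem v_int (z : ℤ) : v (z : L) ≤ 1 := by
  have hnat : ∀ k : ℕ, v (k : L) ≤ 1 := by
    intro k
    induction k with
    | zero => simp
    | succ k ih =>
      rw [Nat.cast_succ]
      exact (v.map_add _ _).trans (max_le ih (by rw [map_one]))
  rcases Int.natAbs_eq z with h | h
  · rw [h, Int.cast_natCast]
    exact hnat _
  · rw [h, Int.cast_neg, Int.cast_natCast, Valuation.map_neg]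
    exact hnat _

theorem IntP.mul {F G : MvPolynomial σ L} (hF : IntP v F) (hG : IntP v G) :
    IntP v (F * G) := by
  classical
  intro I
  rw [coeff_mul]
  refine v.map_sum_le fun p _ => ?_
  rw [map_mul]
  exact mul_le_one' (hF _) (hG _)

theorem IntP.add {F G : MvPolynomial σ L} (hF : IntP v F) (hG : IntP v G) :
    IntP v (F + G) := by
  intro I
  rw [coeff_add]
  exact (v.map_add _ _).trans (max_le (hF I) (hG I))

theorem IntP.C {a : L} (ha : v a ≤ 1) : IntP v (C a : MvPolynomial σ L) := by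
  classical
  intro I
  rw [coeff_C]
  split_ifs
  · exact ha
  · rw [map_zero]
    exact zero_le_one

theorem IntP.X (i : σ) : IntP v (X i : MvPolynomial σ L) := by
  classical
  intro I
  rw [coeff_X]
  split_ifs
  · rw [map_one]
  · rw [map_zero]
    exact zero_le_one

theorem IntP.zero : IntP v (0 : MvPolynomial σ L) := by
  intro I
  rw [coeff_zero, map_zero]
  exact zero_le_one

theorem IntP.sum {ι : Type} (s : Finset ι) {F : ι → MvPolynomial σ L} (hF : ∀ i, IntP v (F i)) :
    IntP v (∑ i ∈ s, F i) := by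
  intro I
  rw [coeff_sum]
  exact v.map_sum_le fun i _ => hF i I

theorem IntP.pow {F : MvPolynomial σ L} (hF : IntP v F) (k : ℕ) : IntP v (F ^ k) := by
  induction k with
  | zero =>
    rw [pow_zero, ← C_1]
    exact IntP.C (by rw [map_one])
  | succ k ih =>
    rw [pow_succ]
    exact ih.mul hF

theorem IntP.map (F : MvPolynomial σ ℤ) : IntP v (MvPolynomial.map (Int.castRingHom L) F) := by
  intro I
  rw [coeff_map]
  exact v_int _

end

section

variable {L : Type} [Field L] {Γ : Type} [LinearOrderedCommGroupWithZero Γ]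
  {v : Valuation L Γ} {N n c : ℕ} {d : Fin c → ℕ}

theorem v_VT (D : DSys L n c d) {M : Γ}
    (hdel : ∀ m I, I.degree = d m → ∀ f, v f ≤ 1 → v (D.del m I f) ≤ M) {z : Fin (n + 1) → L}
    (hz : ∀ f, v (z f) ≤ 1) {G : Tup L n c} (hG : Hom d G) (hi : ∀ m, IntP v (G m))
    (f : Fin (n + 1)) : v (H75.VT D z G f) ≤ M := by
  rw [H75.VT_apply, H75.DG_apply]
  refine v.map_sum_le fun m _ => v.map_sum_le fun I hI => ?_
  rw [map_mul]
  calc v (coeff I (G m)) * v (D.del m I (z f)) ≤ 1 * M :=
        mul_le_mul' (hi m I) (hdel m I (H75.deg_of_mem hG hI) _ (hz f))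
    _ = M := one_mul M

theorem GV_int (E : Dat N n c) {ζ : Fin 3 → MvPolynomial (Fin (n + 1)) L}
    (hζ : ∀ i, IntP v (ζ i)) (j : Fin N × Wx c) (p : Fin N) (m : Fin c) :
    IntP v (GV E ζ j p m) := by
  rcases j with ⟨q, w | b⟩
  · refine (IntP.map _).mul ?_
    rcases w with i | j
    · exact (hζ 0).mul (hζ _)
    · fin_cases j
      · exact (hζ 1).mul (hζ 1)
      · exact (hζ 1).mul (hζ 2)
      · exact (hζ 2).mul (hζ 2)
  · exact (IntP.map _).mul (hζ _)

theorem GU_int {ζ : Fin 3 → MvPolynomial (Fin (n + 1)) L} (hζ : ∀ i, IntP v (ζ i))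
    (u : Fin N × Fin c) (p : Fin N) (m : Fin c) : IntP v (GU d ζ u p m) := by
  unfold GU
  split_ifs
  · by_cases hm : m = u.2
    · subst hm
      rw [Pi.single_eq_same]
      exact (hζ 0).pow _
    · rw [Pi.single_eq_of_ne hm]
      exact IntP.zero
  · exact IntP.zero

theorem v_Dl (e : Cx N c ≃ Rw N n) (D : DSys L n c d) {M : Γ} (hM : 1 ≤ M)
    (hdel : ∀ m I, I.degree = d m → ∀ f, v f ≤ 1 → v (D.del m I f) ≤ M) {E : Dat N n c}
    (hE : E.Hm d) (h2 : ∀ m, 2 ≤ d m) {Q : Fin 3 → Fin (n + 1) → L} (hQ : ∀ i f, v (Q i f) ≤ 1)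
    {ζ : Fin 3 → MvPolynomial (Fin (n + 1)) L} (hζ : ∀ i, (ζ i).IsHomogeneous 1)
    (hi : ∀ i, IntP v (ζ i)) : v (Dl e D Q E ζ ζ) ≤ M ^ Fintype.card (Cx N c) := by
  unfold Dl
  rw [dt_eq]
  refine (T2.G.v_det_le v _ (fun _ => M) fun a k => ?_).trans ?_
  · rw [Matrix.of_apply]
    rcases k with k | u | j
    · show v (if (e a).1 = k.1 then ppc Q k.2 (e a).2 else 0) ≤ M
      split_ifs
      · rcases k with ⟨q, k | k⟩
        · show v (if _ then _ else _) ≤ M
          split_ifs
          · exact (hQ _ _).trans hM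
          · rw [map_zero]
            exact zero_le
        · show v (if _ then _ else _) ≤ M
          split_ifs
          · exact (hQ _ _).trans hM
          · rw [map_zero]
            exact zero_le
      · rw [map_zero]
        exact zero_le
    · exact v_VT D hdel (hQ _) (GU_hom hζ u _) (GU_int hi u _) _
    · exact v_VT D hdel (hQ _) (GV_hom hE h2 hζ j _) (GV_int E hi j _) _
  · rw [Finset.prod_const, Finset.card_univ]

end

end Pool.Agent.T2C.H38
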