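import Mathlib

/-! Determinants for the row C_P_DET: exchange of columns (functionals which kill the other
columns), column operations. -/

set_option autoImplicit false

namespace Pool.Agent.T2C.H38

section

variable {L : Type} [Field L] {R : Type}

/-- the determinant of a system of columns -/
def dt {κ : Type} [Fintype κ] [DecidableEq κ] (e : κ ≃ R) (A : κ → R → L) : L :=
  Matrix.det (Matrix.of fun a k => A k (e a))

theorem dt_eq {κ : Type} [Fintype κ] [DecidableEq κ] (e : κ ≃ R) (A : κ → R → L) :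
    dt e A = Matrix.det (Matrix.of fun a k => A k (e a)) := rfl

/-- other indices of the columns -/
theorem dt_reindex {κ κ' : Type} [Fintype κ] [DecidableEq κ] [Fintype κ'] [DecidableEq κ']
    (σ : κ' ≃ κ) (e : κ ≃ R) (A : κ → R → L) : dt (σ.trans e) (fun k => A (σ k)) = dt e A := by
  rw [dt_eq, dt_eq, ← Matrix.det_submatrix_equiv_self σ]
  rfl

/-- independent columns have a determinant which is not zero -/
theorem dt_ne_zero {κ : Type} [Fintype κ] [DecidableEq κ] (e : κ ≃ R) (A : κ → R → L)
    (h : ∀ w : κ → L, (∀ r, ∑ k, w k * A k r = 0) → w = 0) : dt e A ≠ 0 := by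
  intro h0
  obtain ⟨w, hw0, hw⟩ := Matrix.exists_mulVec_eq_zero_iff.2 h0
  apply hw0
  apply h
  intro r
  have h1 := congrFun hw (e.symm r)
  simp only [Matrix.mulVec, dotProduct, Matrix.of_apply, Pi.zero_apply,
    Equiv.apply_symm_apply] at h1
  rw [← h1]
  exact Finset.sum_congr rfl fun k _ => mul_comm _ _

end

section

variable {L : Type} [Field L] {U V R : Type} [Fintype U] [Fintype V] [Fintype R]
  [DecidableEq U] [DecidableEq V]

/-- if the determinant is not zero: functionals on the first columns -/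
theorem dep_aux (e : U ⊕ V ≃ R) (A A' : U ⊕ V → R → L) (ρ : U → R → L)
    (hA : ∀ v, A (Sum.inr v) = A' (Sum.inr v)) (hρ : ∀ u v, ∑ r, ρ u r * A (Sum.inr v) r = 0)
    (h0 : dt e A ≠ 0) :
    dt e A * Matrix.det (Matrix.of fun u u' => ∑ r, ρ u r * A' (Sum.inl u') r) =
      dt e A' * Matrix.det (Matrix.of fun u u' => ∑ r, ρ u r * A (Sum.inl u') r) := by
  set M : Matrix (U ⊕ V) (U ⊕ V) L := Matrix.of fun a k => A k (e a) with hM
  set M' : Matrix (U ⊕ V) (U ⊕ V) L := Matrix.of fun a k => A' k (e a) with hM'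
  have hu : IsUnit M.det := isUnit_iff_ne_zero.2 h0
  have hinv : M⁻¹ * M = 1 := Matrix.nonsing_inv_mul M hu
  let T : Matrix (U ⊕ V) (U ⊕ V) L := Matrix.of fun a b =>
    Sum.elim (fun u => ρ u (e b)) (fun v => M⁻¹ (Sum.inr v) b) a
  have hsum : ∀ (f : R → L), ∑ b : U ⊕ V, f (e b) = ∑ r, f r := fun f => Equiv.sum_comp e f
  have hTM : T * M = Matrix.fromBlocks (Matrix.of fun u u' => ∑ r, ρ u r * A (Sum.inl u') r) 0
      0 1 := by
    ext a k
    rw [Matrix.mul_apply]
    rcases a with u | v
    · have h1 : ∑ b, T (Sum.inl u) b * M b k = ∑ r, ρ u r * A k r := by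
        rw [← hsum]
        rfl
      rw [h1]
      rcases k with u' | v'
      · rfl
      · rw [hρ]
        rfl
    · have h1 : ∑ b, T (Sum.inr v) b * M b k = (M⁻¹ * M) (Sum.inr v) k := by
        rw [Matrix.mul_apply]
        rfl
      rw [h1, hinv]
      rcases k with u' | v'
      · rw [Matrix.fromBlocks_apply₂₁, Matrix.one_apply_ne (by simp), Matrix.zero_apply]
      · rw [Matrix.fromBlocks_apply₂₂, Matrix.one_apply, Matrix.one_apply]
        simp
  have hTM' : T * M' = Matrix.fromBlocks
      (Matrix.of fun u u' => ∑ r, ρ u r * A' (Sum.inl u') r) 0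
      (Matrix.of fun v u' => ∑ b, M⁻¹ (Sum.inr v) b * M' b (Sum.inl u')) 1 := by
    ext a k
    rw [Matrix.mul_apply]
    rcases a with u | v
    · have h1 : ∑ b, T (Sum.inl u) b * M' b k = ∑ r, ρ u r * A' k r := by
        rw [← hsum]
        rfl
      rw [h1]
      rcases k with u' | v'
      · rfl
      · rw [← hA, hρ]
        rfl
    · rcases k with u' | v'
      · rfl
      · have h1 : ∑ b, T (Sum.inr v) b * M' b (Sum.inr v') = (M⁻¹ * M) (Sum.inr v) (Sum.inr v') := by
          rw [Matrix.mul_apply]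
          refine Finset.sum_congr rfl fun b _ => ?_
          have h2 : M' b (Sum.inr v') = M b (Sum.inr v') := by
            simp only [hM, hM', Matrix.of_apply, hA]
          rw [h2]
          rfl
        rw [h1, hinv, Matrix.fromBlocks_apply₂₂, Matrix.one_apply, Matrix.one_apply]
        simp
  have e1 := congrArg Matrix.det hTM
  have e2 := congrArg Matrix.det hTM'
  rw [Matrix.det_mul, Matrix.det_fromBlocks_zero₂₁, Matrix.det_one, mul_one] at e1
  rw [Matrix.det_mul, Matrix.det_fromBlocks_zero₁₂, Matrix.det_one, mul_one] at e2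
  rw [← e1, ← e2]
  change M.det * (T.det * M'.det) = M'.det * (T.det * M.det)
  ring

/-- exchange of the first columns -/
theorem dep (e : U ⊕ V ≃ R) (A A' : U ⊕ V → R → L) (ρ : U → R → L)
    (hA : ∀ v, A (Sum.inr v) = A' (Sum.inr v)) (hρ : ∀ u v, ∑ r, ρ u r * A (Sum.inr v) r = 0) :
    dt e A * Matrix.det (Matrix.of fun u u' => ∑ r, ρ u r * A' (Sum.inl u') r) =
      dt e A' * Matrix.det (Matrix.of fun u u' => ∑ r, ρ u r * A (Sum.inl u') r) := by
  by_cases h0 : dt e A = 0
  · by_cases h1 : dt e A' = 0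
    · rw [h0, h1, zero_mul, zero_mul]
    · exact (dep_aux e A' A ρ (fun v => (hA v).symm) (fun u v => by rw [← hA]; exact hρ u v)
        h1).symm
  · exact dep_aux e A A' ρ hA hρ h0

/-- column operations -/
theorem col_op (e : U ⊕ V ≃ R) (A A' : U ⊕ V → R → L) (E : Matrix V V L)
    (hU : ∀ u, A' (Sum.inl u) = A (Sum.inl u))
    (hV : ∀ v r, A' (Sum.inr v) r = ∑ v', E v v' * A (Sum.inr v') r) :
    dt e A' = E.det * dt e A := by
  have h1 : (Matrix.of fun a k => A' k (e a) : Matrix (U ⊕ V) (U ⊕ V) L) =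
      (Matrix.of fun a k => A k (e a)) * Matrix.fromBlocks 1 0 0 E.transpose := by
    ext a k
    rw [Matrix.mul_apply, Fintype.sum_sum_type]
    rcases k with u | v
    · simp only [Matrix.of_apply, Matrix.fromBlocks_apply₁₁, Matrix.fromBlocks_apply₂₁,
        Matrix.zero_apply, mul_zero, Finset.sum_const_zero, add_zero, Matrix.one_apply, mul_ite,
        mul_one, Finset.sum_ite_eq', Finset.mem_univ, if_true, hU]
    · simp only [Matrix.of_apply, Matrix.fromBlocks_apply₁₂, Matrix.fromBlocks_apply₂₂,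
        Matrix.zero_apply, mul_zero, Finset.sum_const_zero, zero_add, Matrix.transpose_apply, hV]
      exact Finset.sum_congr rfl fun v' _ => mul_comm _ _
  rw [dt_eq, h1, Matrix.det_mul, Matrix.det_fromBlocks_zero₂₁, Matrix.det_one, one_mul,
    Matrix.det_transpose, mul_comm, dt_eq]

end

end Pool.Agent.T2C.H38
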