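import Pool.Agent.Lib.MP_c7af3c_ag.T2C.H38.Frame
import Pool.Agent.Lib.MP_c7af3c_ag.T2C.Plane

/-! Row C_P_DET: the tuples of forms of the block, change of the linear forms. -/

set_option autoImplicit false

namespace Pool.Agent.T2C.H38

open MvPolynomial Pool.Agent.Gen Pool.Agent.Sharp Pool.Agent.Edge
open Pool.Agent.Sharp.H75 (DG Tup Hom)
open Pool.Agent.Edge.H65 (ssub)

/-- the indices of the block in one copy -/
abbrev Wx (c : ℕ) : Type := (Fin 2 ⊕ Fin 3) ⊕ Fin c × Fin 2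

/-- the constant forms of the block -/
structure Dat (N n c : ℕ) where
  C : Fin N → Fin N → Fin c → MvPolynomial (Fin (n + 1)) ℤ
  A : Fin N → Fin N → Fin c → Fin c → MvPolynomial (Fin (n + 1)) ℤ

/-- the degrees of the constant forms -/
structure Dat.Hm {N n c : ℕ} (E : Dat N n c) (d : Fin c → ℕ) : Prop where
  C : ∀ p q m, (E.C p q m).IsHomogeneous (d m - 2)
  A : ∀ p q a m, (E.A p q a m).IsHomogeneous (d m - 1)

section

variable {L : Type} [Field L] {N n c : ℕ} {d : Fin c → ℕ} {σ : Type}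

/-- the quadratic products -/
noncomputable def q5 (ζ : Fin 3 → MvPolynomial σ L) : Fin 2 ⊕ Fin 3 → MvPolynomial σ L
  | Sum.inl i => ζ 0 * ζ i.succ
  | Sum.inr j => (![ζ 1 * ζ 1, ζ 1 * ζ 2, ζ 2 * ζ 2] : Fin 3 → MvPolynomial σ L) j

/-- the tuples of the block -/
noncomputable def GV (E : Dat N n c) (ζ : Fin 3 → MvPolynomial (Fin (n + 1)) L) :
    Fin N × Wx c → Fin N → Tup L n c
  | (q, Sum.inl w) => fun p m => MvPolynomial.map (Int.castRingHom L) (E.C p q m) * q5 ζ w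
  | (q, Sum.inr b) => fun p m =>
      MvPolynomial.map (Int.castRingHom L) (E.A p q b.1 m) * ζ b.2.succ

/-- the powers of the first form -/
noncomputable def GU (d : Fin c → ℕ) (ζ : Fin 3 → MvPolynomial (Fin (n + 1)) L) :
    Fin N × Fin c → Fin N → Tup L n c :=
  fun u p => if p = u.1 then Pi.single u.2 (ζ 0 ^ d u.2) else 0

theorem q5_hom {ζ : Fin 3 → MvPolynomial σ L} (hζ : ∀ i, (ζ i).IsHomogeneous 1)
    (w : Fin 2 ⊕ Fin 3) : (q5 ζ w).IsHomogeneous 2 := by
  rcases w with i | j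
  · exact (hζ 0).mul (hζ _)
  · fin_cases j
    · exact (hζ 1).mul (hζ 1)
    · exact (hζ 1).mul (hζ 2)
    · exact (hζ 2).mul (hζ 2)

theorem GV_hom {E : Dat N n c} (hE : E.Hm d) (h2 : ∀ m, 2 ≤ d m)
    {ζ : Fin 3 → MvPolynomial (Fin (n + 1)) L} (hζ : ∀ i, (ζ i).IsHomogeneous 1)
    (v : Fin N × Wx c) (p : Fin N) : Hom d (GV E ζ v p) := by
  intro m
  rcases v with ⟨q, w | b⟩
  · have h := ((hE.C p q m).map (Int.castRingHom L)).mul (q5_hom hζ w)
    rwa [Nat.sub_add_cancel (h2 m)] at h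
  · have h := ((hE.A p q b.1 m).map (Int.castRingHom L)).mul (hζ b.2.succ)
    rwa [Nat.sub_add_cancel ((h2 m).trans' one_le_two)] at h

theorem GU_hom {ζ : Fin 3 → MvPolynomial (Fin (n + 1)) L} (hζ : ∀ i, (ζ i).IsHomogeneous 1)
    (u : Fin N × Fin c) (p : Fin N) : Hom d (GU d ζ u p) := by
  intro m
  unfold GU
  split_ifs with h
  · by_cases hm : m = u.2
    · subst hm
      rw [Pi.single_eq_same]
      have h1 := (hζ 0).pow (d u.2)
      rwa [one_mul] at h1
    · rw [Pi.single_eq_of_ne hm]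
      exact isHomogeneous_zero _ _ _
  · exact isHomogeneous_zero _ _ _

/-- the change of the two forms which vanish at the point -/
def E2 (h : Matrix (Fin 3) (Fin 3) L) : Matrix (Fin 2) (Fin 2) L :=
  Matrix.of fun i i' => h i'.succ i.succ

/-- the symmetric square -/
def E33 (e : Matrix (Fin 2) (Fin 2) L) : Matrix (Fin 3) (Fin 3) L :=
  !![e 0 0 * e 0 0, 2 * (e 0 0 * e 0 1), e 0 1 * e 0 1;
    e 0 0 * e 1 0, e 0 0 * e 1 1 + e 0 1 * e 1 0, e 0 1 * e 1 1;
    e 1 0 * e 1 0, 2 * (e 1 0 * e 1 1), e 1 1 * e 1 1]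

/-- the mixed part -/
def E53 (h : Matrix (Fin 3) (Fin 3) L) : Matrix (Fin 2) (Fin 3) L :=
  Matrix.of fun i => ![h 1 0 * E2 h i 0, h 1 0 * E2 h i 1 + h 2 0 * E2 h i 0, h 2 0 * E2 h i 1]

/-- the change of the quadratic products -/
def E5 (h : Matrix (Fin 3) (Fin 3) L) : Matrix (Fin 2 ⊕ Fin 3) (Fin 2 ⊕ Fin 3) L :=
  Matrix.fromBlocks (h 0 0 • E2 h) (E53 h) 0 (E33 (E2 h))

/-- the change of the block in one copy -/
def E0 (c : ℕ) (h : Matrix (Fin 3) (Fin 3) L) : Matrix (Wx c) (Wx c) L :=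
  Matrix.fromBlocks (E5 h) 0 0
    (Matrix.kroneckerMap (fun a b => a * b) (1 : Matrix (Fin c) (Fin c) L) (E2 h))

theorem det_E33 (e : Matrix (Fin 2) (Fin 2) L) : (E33 e).det = e.det ^ 3 := by
  rw [Matrix.det_fin_three, Matrix.det_fin_two]
  simp only [E33, Matrix.of_apply, Matrix.cons_val', Matrix.cons_val_zero, Matrix.cons_val_one,
    Matrix.cons_val]
  ring

theorem det_E0 (c : ℕ) (h : Matrix (Fin 3) (Fin 3) L) :
    (E0 c h).det = h 0 0 ^ 2 * (E2 h).det ^ (4 + c) := by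
  unfold E0 E5
  have h1 := Matrix.det_kronecker (1 : Matrix (Fin c) (Fin c) L) (E2 h)
  rw [Matrix.det_one, one_pow, one_mul, Fintype.card_fin] at h1
  rw [Matrix.det_fromBlocks_zero₂₁, Matrix.det_fromBlocks_zero₂₁, Matrix.det_smul, det_E33,
    Fintype.card_fin]
  have h2 : (Matrix.kroneckerMap (fun a b => a * b) (1 : Matrix (Fin c) (Fin c) L)
    (E2 h)).det = (E2 h).det ^ c := h1
  rw [h2]
  ring

/-- change of the quadratic products -/
theorem q5_change {a b : Fin 3 → MvPolynomial σ L} {h : Matrix (Fin 3) (Fin 3) L}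
    (hab : ∀ i, a i = ∑ j, C (h j i) * b j) (h01 : h 0 1 = 0) (h02 : h 0 2 = 0)
    (w : Fin 2 ⊕ Fin 3) : q5 a w = ∑ w', C (E5 h w w') * q5 b w' := by
  have ha0 : a 0 = C (h 0 0) * b 0 + C (h 1 0) * b 1 + C (h 2 0) * b 2 := by
    rw [hab, Fin.sum_univ_three]
  have ha : ∀ i : Fin 2, a i.succ = C (E2 h i 0) * b 1 + C (E2 h i 1) * b 2 := by
    intro i
    rw [hab, Fin.sum_univ_three]
    have h0 : h 0 i.succ = 0 := by
      fin_cases i
      · exact h01
      · exact h02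
    rw [h0, C_0, zero_mul, zero_add]
    rfl
  have ha1 : a 1 = C (E2 h 0 0) * b 1 + C (E2 h 0 1) * b 2 := ha 0
  have ha2 : a 2 = C (E2 h 1 0) * b 1 + C (E2 h 1 1) * b 2 := ha 1
  rw [Fintype.sum_sum_type, Fin.sum_univ_two, Fin.sum_univ_three]
  rcases w with i | j
  · simp only [q5, E5, Matrix.fromBlocks_apply₁₁, Matrix.fromBlocks_apply₁₂, Matrix.smul_apply,
      smul_eq_mul, E53, Matrix.of_apply, Matrix.cons_val_zero, Matrix.cons_val_one,
      Matrix.cons_val, Fin.succ_zero_eq_one, Fin.succ_one_eq_two, ha i, ha0, C_mul, C_add]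
    ring
  · simp only [q5, E5, Matrix.fromBlocks_apply₂₁, Matrix.fromBlocks_apply₂₂, Matrix.zero_apply,
      C_0, zero_mul, zero_add, ha1, ha2]
    have hC2 : (C (2 : L) : MvPolynomial σ L) = 2 := map_ofNat C 2
    fin_cases j
    · simp only [E33, Fin.zero_eta, Matrix.of_apply, Matrix.cons_val', Matrix.cons_val_zero,
        Matrix.cons_val_one, Matrix.cons_val, C_mul, hC2]
      ring
    · simp only [E33, Fin.mk_one, Matrix.of_apply, Matrix.cons_val', Matrix.cons_val_zero,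
        Matrix.cons_val_one, Matrix.cons_val, C_mul, C_add]
      ring
    · simp only [E33, Fin.reduceFinMk, Matrix.of_apply, Matrix.cons_val', Matrix.cons_val_zero,
        Matrix.cons_val_one, Matrix.cons_val, C_mul, hC2]
      ring

/-- the change of the block -/
def EJ (N c : ℕ) (h : Matrix (Fin 3) (Fin 3) L) : Matrix (Fin N × Wx c) (Fin N × Wx c) L :=
  Matrix.kroneckerMap (fun a b => a * b) (1 : Matrix (Fin N) (Fin N) L) (E0 c h)

theorem det_EJ (N c : ℕ) (h : Matrix (Fin 3) (Fin 3) L) : (EJ N c h).det = (E0 c h).det ^ N := by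
  have h1 := Matrix.det_kronecker (1 : Matrix (Fin N) (Fin N) L) (E0 c h)
  rw [Matrix.det_one, one_pow, one_mul, Fintype.card_fin] at h1
  exact h1

theorem EJ_sum {M : Type} [AddCommMonoid M] [Module L M] (h : Matrix (Fin 3) (Fin 3) L)
    (q : Fin N) (w : Wx c) (f : Fin N × Wx c → M) :
    ∑ v', EJ N c h (q, w) v' • f v' = ∑ w', E0 c h w w' • f (q, w') := by
  rw [Fintype.sum_prod_type, Finset.sum_eq_single q]
  · refine Finset.sum_congr rfl fun w' _ => ?_
    simp [EJ, Matrix.kroneckerMap]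
  · intro q' _ hq
    refine Finset.sum_eq_zero fun w' _ => ?_
    simp [EJ, Matrix.kroneckerMap, Matrix.one_apply_ne (Ne.symm hq)]
  · intro h
    exact absurd (Finset.mem_univ _) h

theorem ssub_q5 (P : Fin 3 → Fin (n + 1) → L) (ζ : Fin 3 → MvPolynomial (Fin (n + 1)) L)
    (w : Fin 2 ⊕ Fin 3) : ssub P (q5 ζ w) = q5 (fun i => ssub P (ζ i)) w := by
  rcases w with i | j
  · simp only [q5, map_mul]
  · fin_cases j <;> simp [q5]

/-- change of the linear forms -/
theorem GV_change (E : Dat N n c) (P : Fin 3 → Fin (n + 1) → L)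
    {ζ ζ' : Fin 3 → MvPolynomial (Fin (n + 1)) L} {h : Matrix (Fin 3) (Fin 3) L}
    (hab : ∀ i, ssub P (ζ i) = ∑ j, C (h j i) * ssub P (ζ' j)) (h01 : h 0 1 = 0) (h02 : h 0 2 = 0)
    (v : Fin N × Wx c) (p : Fin N) (m : Fin c) :
    ssub P (GV E ζ v p m) = ∑ v', EJ N c h v v' • ssub P (GV E ζ' v' p m) := by
  obtain ⟨q, w⟩ := v
  rw [EJ_sum, Fintype.sum_sum_type]
  rcases w with w | ⟨a, i⟩
  · have h2 : ∑ b : Fin c × Fin 2, E0 c h (Sum.inl w) (Sum.inr b) •
        ssub P (GV E ζ' (q, Sum.inr b) p m) = 0 := by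
      refine Finset.sum_eq_zero fun b _ => ?_
      simp [E0]
    rw [h2, add_zero]
    simp only [GV, map_mul, ssub_q5]
    rw [q5_change hab h01 h02 w, Finset.mul_sum]
    refine Finset.sum_congr rfl fun w' _ => ?_
    rw [E0, Matrix.fromBlocks_apply₁₁, smul_eq_C_mul]
    ring
  · have h2 : ∑ w' : Fin 2 ⊕ Fin 3, E0 c h (Sum.inr (a, i)) (Sum.inl w') •
        ssub P (GV E ζ' (q, Sum.inl w') p m) = 0 := by
      refine Finset.sum_eq_zero fun b _ => ?_
      simp [E0]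
    rw [h2, zero_add, Fintype.sum_prod_type, Finset.sum_eq_single a]
    · simp only [GV, map_mul]
      rw [hab, Fin.sum_univ_three, Fin.sum_univ_two]
      have h0 : h 0 i.succ = 0 := by
        fin_cases i
        · exact h01
        · exact h02
      rw [h0, C_0, zero_mul, zero_add, mul_add]
      simp only [E0, Matrix.fromBlocks_apply₂₂, Matrix.kroneckerMap_apply, Matrix.one_apply_eq,
        one_mul, E2, Matrix.of_apply, smul_eq_C_mul, Fin.succ_zero_eq_one, Fin.succ_one_eq_two]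
      ring
    · intro a' _ ha
      refine Finset.sum_eq_zero fun b _ => ?_
      simp [E0, Matrix.kroneckerMap, Matrix.one_apply_ne (Ne.symm ha)]
    · intro h
      exact absurd (Finset.mem_univ _) h

/-- change of the linear forms in the variations -/
theorem VT_change (D : DSys L n c d) {E : Dat N n c} (hE : E.Hm d) (h2 : ∀ m, 2 ≤ d m)
    (P : Fin 3 → Fin (n + 1) → L) {z : Fin (n + 1) → L}
    (hint : ∀ G : Tup L n c, Hom d G → (∀ m, ssub P (G m) = 0) → H75.VT D z G = 0)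
    {ζ ζ' : Fin 3 → MvPolynomial (Fin (n + 1)) L} (hζ : ∀ i, (ζ i).IsHomogeneous 1)
    (hζ' : ∀ i, (ζ' i).IsHomogeneous 1) {h : Matrix (Fin 3) (Fin 3) L}
    (hab : ∀ i, ssub P (ζ i) = ∑ j, C (h j i) * ssub P (ζ' j)) (h01 : h 0 1 = 0) (h02 : h 0 2 = 0)
    (v : Fin N × Wx c) (p : Fin N) :
    H75.VT D z (GV E ζ v p) = ∑ v', EJ N c h v v' • H75.VT D z (GV E ζ' v' p) := by
  have h1 := hint (GV E ζ v p - ∑ v', EJ N c h v v' • GV E ζ' v' p) ?_ ?_
  · rw [map_sub, map_sum, sub_eq_zero] at h1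
    rw [h1]
    exact Finset.sum_congr rfl fun v' _ => map_smul _ _ _
  · intro m
    refine (GV_hom hE h2 hζ v p m).sub ?_
    rw [Finset.sum_apply]
    refine IsHomogeneous.sum _ _ _ fun v' _ => ?_
    rw [Pi.smul_apply, smul_eq_C_mul]
    have h3 := (isHomogeneous_C (Fin (n + 1)) (EJ N c h v v')).mul (GV_hom hE h2 hζ' v' p m)
    rwa [zero_add] at h3
  · intro m
    rw [Pi.sub_apply, map_sub, GV_change E P hab h01 h02, Finset.sum_apply, map_sum, sub_eq_zero]
    exact Finset.sum_congr rfl fun v' _ => by rw [Pi.smul_apply, map_smul]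

end

end Pool.Agent.T2C.H38
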