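import Pool.Agent.Lib.MP_c7af3c_ag.SHARP.H75.Key
import Pool.Agent.Lib.MP_c7af3c_ag.T2C.H38.Dep
import Mathlib.LinearAlgebra.Matrix.Kronecker

/-! Row C_P_DET: `N` copies of the infinitesimal changes of the frame and any tuples of forms;
change of the frame. -/

set_option autoImplicit false

namespace Pool.Agent.T2C.H38

open MvPolynomial Pool.Agent.Gen Pool.Agent.Sharp
open Pool.Agent.Sharp.H75 (DG VT Tup VT_apply)

/-- the indices of the changes of the frame -/
abbrev K7 : Type := Unit ⊕ Fin 2 × Fin 3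

/-- the rows -/
abbrev Rw (N n : ℕ) : Type := Fin N × (Fin 3 × Fin (n + 1))

section

variable {L : Type} [Field L] {n c : ℕ} {d : Fin c → ℕ}

/-- the seven changes of the frame -/
def ppc (Q : Fin 3 → Fin (n + 1) → L) : K7 → Fin 3 × Fin (n + 1) → L
  | Sum.inl _ => fun p => if p.1 = 0 then Q 0 p.2 else 0
  | Sum.inr q => fun p => if p.1 = q.1.succ then Q q.2 p.2 else 0

/-- the columns: `N` copies of the changes of the frame, the variations -/
noncomputable def cN {N : ℕ} {J : Type} (D : DSys L n c d) (Q : Fin 3 → Fin (n + 1) → L)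
    (G : J → Fin N → Tup L n c) : (Fin N × K7) ⊕ J → Rw N n → L
  | Sum.inl k => fun r => if r.1 = k.1 then ppc Q k.2 r.2 else 0
  | Sum.inr j => fun r => VT D (Q r.2.1) (G j r.1) r.2.2

/-- the lower right block -/
def g2 (g : Matrix (Fin 3) (Fin 3) L) : Matrix (Fin 2) (Fin 2) L :=
  Matrix.of fun a b => g a.succ b.succ

/-- the action on the changes of the frame -/
def t1 (g h : Matrix (Fin 3) (Fin 3) L) : Matrix K7 K7 L :=
  Matrix.fromBlocks 1 0 (Matrix.of fun p _ => g p.1.succ 0 * h 0 p.2)
    (Matrix.kroneckerMap (fun a b => a * b) (g2 g) h.transpose)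

theorem det_t1 (g h : Matrix (Fin 3) (Fin 3) L) : (t1 g h).det = (g2 g).det ^ 3 * h.det ^ 2 := by
  unfold t1
  rw [Matrix.det_fromBlocks_zero₁₂, Matrix.det_one, one_mul]
  have h := Matrix.det_kronecker (g2 g) h.transpose
  rw [Matrix.det_transpose, Fintype.card_fin, Fintype.card_fin] at h
  exact h

/-- the part of a row in the frame columns -/
theorem row_zero (P : Fin 3 → Fin (n + 1) → L) (f : Fin (n + 1)) (α : K7 → L) :
    ∑ k, ppc P k (0, f) * α k = P 0 f * α (Sum.inl ()) := by
  rw [Fintype.sum_sum_type]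
  have h1 : ∀ q : Fin 2 × Fin 3, ppc P (Sum.inr q) (0, f) = 0 := by
    intro q
    have h2 : (0 : Fin 3) ≠ q.1.succ := (Fin.succ_ne_zero _).symm
    simp only [ppc]
    exact if_neg h2
  simp only [h1, zero_mul, Finset.sum_const_zero, add_zero]
  simp [ppc]

theorem row_succ (P : Fin 3 → Fin (n + 1) → L) (a : Fin 2) (f : Fin (n + 1)) (α : K7 → L) :
    ∑ k, ppc P k (a.succ, f) * α k = ∑ b, P b f * α (Sum.inr (a, b)) := by
  rw [Fintype.sum_sum_type]
  have h1 : ∀ u : Unit, ppc P (Sum.inl u) (a.succ, f) = 0 := by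
    intro u
    have h2 : a.succ ≠ (0 : Fin 3) := Fin.succ_ne_zero _
    simp only [ppc]
    exact if_neg h2
  simp only [h1, zero_mul, Finset.sum_const_zero, zero_add]
  rw [Fintype.sum_prod_type, Finset.sum_eq_single a]
  · refine Finset.sum_congr rfl fun b _ => ?_
    simp [ppc]
  · intro a' _ ha'
    refine Finset.sum_eq_zero fun b _ => ?_
    have h2 : a.succ ≠ a'.succ := fun h => ha' (Fin.succ_injective _ h).symm
    simp only [ppc]
    rw [if_neg h2, zero_mul]
  · intro h
    exact absurd (Finset.mem_univ _) h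

variable {P Q : Fin 3 → Fin (n + 1) → L} {g h : Matrix (Fin 3) (Fin 3) L}

/-- frame columns in one copy -/
theorem ident_pp (hQ : ∀ j f, Q j f = ∑ k, h j k * P k f)
    (hP : ∀ i f, P i f = ∑ j, g i j * Q j f) (h01 : g 0 1 = 0) (h02 : g 0 2 = 0)
    (p : Fin 3 × Fin (n + 1)) (k : K7) :
    ∑ k', ppc P k' p * t1 g h k' k = ∑ i', g p.1 i' * ppc Q k (i', p.2) := by
  obtain ⟨i, f⟩ := p
  have hP0 : ∀ f, P 0 f = g 0 0 * Q 0 f := by
    intro f
    rw [hP, Fin.sum_univ_three, h01, h02]
    ring
  rcases k with k | ⟨a, b⟩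
  · have hR : ∑ i', g i i' * ppc Q (Sum.inl k) (i', f) = g i 0 * Q 0 f := by
      rw [Fin.sum_univ_three]
      simp [ppc]
    rw [hR]
    induction i using Fin.cases with
    | zero =>
      rw [row_zero, hP0]
      simp [t1]
    | succ a =>
      rw [row_succ, hQ 0 f, Finset.mul_sum]
      refine Finset.sum_congr rfl fun b _ => ?_
      simp only [t1, Matrix.fromBlocks_apply₂₁, Matrix.of_apply]
      ring
  · have hR : ∑ i', g i i' * ppc Q (Sum.inr (a, b)) (i', f) = g i a.succ * Q b f := by
      rw [Finset.sum_eq_single a.succ]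
      · simp [ppc]
      · intro i' _ hi
        simp [ppc, hi]
      · intro h
        exact absurd (Finset.mem_univ _) h
    rw [hR]
    induction i using Fin.cases with
    | zero =>
      rw [row_zero]
      have h0 : g 0 a.succ = 0 := by
        fin_cases a
        · exact h01
        · exact h02
      rw [h0]
      simp [t1]
    | succ a' =>
      rw [row_succ, hQ b f, Finset.mul_sum]
      refine Finset.sum_congr rfl fun b' _ => ?_
      simp only [t1, Matrix.fromBlocks_apply₂₂, Matrix.kroneckerMap_apply,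
        Matrix.transpose_apply, g2, Matrix.of_apply]
      ring

/-- the correction of a variation -/
noncomputable def corr (D : DSys L n c d) (g h : Matrix (Fin 3) (Fin 3) L) (G : Tup L n c) :
    K7 → L :=
  Sum.elim (fun _ => ∑ j, DG D G (g 0 j) * h j 0) fun p => ∑ j, DG D G (g p.1.succ j) * h j p.2

/-- variations in one copy -/
theorem ident_vt (D : DSys L n c d) (hQ : ∀ j f, Q j f = ∑ k, h j k * P k f)
    (hP : ∀ i f, P i f = ∑ j, g i j * Q j f) (h01 : g 0 1 = 0) (h02 : g 0 2 = 0)
    (h00 : g 0 0 * h 0 0 = 1) (G : Tup L n c) (p : Fin 3 × Fin (n + 1)) :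
    VT D (P p.1) G p.2 - ∑ k', ppc P k' p * corr D g h G k' =
      ∑ i', g p.1 i' * VT D (Q i') G p.2 := by
  obtain ⟨i, f⟩ := p
  have hP0 : ∀ f, P 0 f = g 0 0 * Q 0 f := by
    intro f
    rw [hP, Fin.sum_univ_three, h01, h02]
    ring
  have hV : VT D (P i) G f = ∑ j, g i j * VT D (Q j) G f + ∑ j, DG D G (g i j) * Q j f := by
    rw [VT_apply, hP, map_sum, ← Finset.sum_add_distrib]
    refine Finset.sum_congr rfl fun j _ => ?_
    rw [Derivation.leibniz, smul_eq_mul, smul_eq_mul, VT_apply]
    ring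
  have hex : ∑ j, DG D G (g i j) * Q j f = ∑ k, P k f * ∑ j, DG D G (g i j) * h j k := by
    simp only [Finset.mul_sum]
    rw [Finset.sum_comm]
    refine Finset.sum_congr rfl fun j _ => ?_
    rw [hQ j f, Finset.mul_sum]
    refine Finset.sum_congr rfl fun k _ => ?_
    ring
  simp only
  rw [hV]
  have hkey : ∑ k', ppc P k' (i, f) * corr D g h G k' = ∑ j, DG D G (g i j) * Q j f := by
    induction i using Fin.cases with
    | zero =>
      rw [row_zero]
      simp only [corr, Sum.elim_inl]
      rw [Fin.sum_univ_three, Fin.sum_univ_three, h01, h02, map_zero, hP0]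
      linear_combination (DG D G (g 0 0) * Q 0 f) * h00
    | succ a =>
      rw [row_succ, hex]
      simp only [corr, Sum.elim_inr]
  rw [hkey]
  ring

/-- **Change of the frame.** -/
theorem dt_frame {N : ℕ} {J : Type} [Fintype J] [DecidableEq J] (e : (Fin N × K7) ⊕ J ≃ Rw N n)
    (D : DSys L n c d) (G : J → Fin N → Tup L n c) (hg : g.det ≠ 0) (h01 : g 0 1 = 0)
    (h02 : g 0 2 = 0) (hP : ∀ i f, P i f = ∑ j, g i j * Q j f) :
    dt e (cN D P G) = (g.det ^ n * g 0 0 ^ 3) ^ N * dt e (cN D Q G) := by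
  have hu : IsUnit g.det := isUnit_iff_ne_zero.2 hg
  have hd : g.det = g 0 0 * (g2 g).det := by
    rw [Matrix.det_fin_three, Matrix.det_fin_two, h01, h02]
    simp only [g2, Matrix.of_apply, Fin.succ_zero_eq_one, Fin.succ_one_eq_two]
    ring
  have h0 : g 0 0 ≠ 0 := fun h => hg (by rw [hd, h, zero_mul])
  have hQ : ∀ j f, Q j f = ∑ k, g⁻¹ j k * P k f := by
    intro j f
    have h1 : ∑ k, g⁻¹ j k * P k f = ∑ l, (g⁻¹ * g) j l * Q l f := by
      simp only [hP, Matrix.mul_apply, Finset.mul_sum, Finset.sum_mul]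
      rw [Finset.sum_comm]
      refine Finset.sum_congr rfl fun l _ => Finset.sum_congr rfl fun k _ => ?_
      ring
    rw [h1, Matrix.nonsing_inv_mul g hu, Finset.sum_eq_single j]
    · rw [Matrix.one_apply_eq, one_mul]
    · intro l _ hl
      rw [Matrix.one_apply_ne (Ne.symm hl), zero_mul]
    · intro h
      exact absurd (Finset.mem_univ _) h
  have h00 : g 0 0 * g⁻¹ 0 0 = 1 := by
    have h1 := congrFun (congrFun (Matrix.mul_nonsing_inv g hu) 0) 0
    rw [Matrix.mul_apply, Fin.sum_univ_three, h01, h02, Matrix.one_apply_eq] at h1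
    linear_combination h1
  let T : Matrix ((Fin N × K7) ⊕ J) ((Fin N × K7) ⊕ J) L := Matrix.fromBlocks
    (Matrix.kroneckerMap (fun a b => a * b) (1 : Matrix (Fin N) (Fin N) L) (t1 g g⁻¹))
    (Matrix.of fun k j => - corr D g g⁻¹ (G j k.1) k.2) 0 1
  let A : Matrix (Rw N n) (Rw N n) L := Matrix.kroneckerMap (fun a b => a * b)
    (1 : Matrix (Fin N) (Fin N) L)
    (Matrix.kroneckerMap (fun a b => a * b) g (1 : Matrix (Fin (n + 1)) (Fin (n + 1)) L))
  have hT : T.det = ((g2 g).det ^ 3 * (g⁻¹).det ^ 2) ^ N := by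
    have h := Matrix.det_kronecker (1 : Matrix (Fin N) (Fin N) L) (t1 g g⁻¹)
    rw [Matrix.det_one, one_pow, one_mul, Fintype.card_fin, det_t1] at h
    rw [Matrix.det_fromBlocks_zero₂₁, Matrix.det_one, mul_one]
    exact h
  have hA : A.det = (g.det ^ (n + 1)) ^ N := by
    have h := Matrix.det_kronecker g (1 : Matrix (Fin (n + 1)) (Fin (n + 1)) L)
    rw [Matrix.det_one, one_pow, mul_one, Fintype.card_fin] at h
    have h' := Matrix.det_kronecker (1 : Matrix (Fin N) (Fin N) L)
      (Matrix.kroneckerMap (fun a b => a * b) g (1 : Matrix (Fin (n + 1)) (Fin (n + 1)) L))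
    rw [Matrix.det_one, one_pow, one_mul, Fintype.card_fin] at h'
    have h2 : (Matrix.kroneckerMap (fun a b => a * b) g
      (1 : Matrix (Fin (n + 1)) (Fin (n + 1)) L)).det = g.det ^ (n + 1) := h
    rw [h2] at h'
    exact h'
  have hrow : ∀ (r : Rw N n) (β : Rw N n → L), ∑ r', A r r' * β r' =
      ∑ i', g r.2.1 i' * β (r.1, (i', r.2.2)) := by
    rintro ⟨a, i, f⟩ β
    rw [Fintype.sum_prod_type, Finset.sum_eq_single a]
    · rw [Fintype.sum_prod_type]
      refine Finset.sum_congr rfl fun i' _ => ?_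
      rw [Finset.sum_eq_single f]
      · simp [A, Matrix.kroneckerMap]
      · intro f' _ hf
        simp [A, Matrix.kroneckerMap, Matrix.one_apply_ne (Ne.symm hf)]
      · intro h
        exact absurd (Finset.mem_univ _) h
    · intro a' _ ha
      refine Finset.sum_eq_zero fun p _ => ?_
      simp [A, Matrix.kroneckerMap, Matrix.one_apply_ne (Ne.symm ha)]
    · intro h
      exact absurd (Finset.mem_univ _) h
  have hmat : (Matrix.of fun a k => cN D P G k (e a)) * T =
      (A.submatrix e e) * (Matrix.of fun a k => cN D Q G k (e a)) := by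
    ext a k
    rw [Matrix.mul_apply, Matrix.mul_apply]
    simp only [Matrix.of_apply, Matrix.submatrix_apply]
    rw [Equiv.sum_comp e fun r' => A (e a) r' * cN D Q G k r', hrow]
    generalize e a = r
    obtain ⟨b, p⟩ := r
    rw [Fintype.sum_sum_type]
    rcases k with ⟨b', k⟩ | j
    · have hz : ∑ j, cN D P G (Sum.inr j) (b, p) * T (Sum.inr j) (Sum.inl (b', k)) = 0 := by
        refine Finset.sum_eq_zero fun j _ => ?_
        simp [T]
      rw [hz, add_zero, Fintype.sum_prod_type, Finset.sum_eq_single b]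
      · by_cases hb : b = b'
        · subst hb
          simp only [cN, if_true, T, Matrix.fromBlocks_apply₁₁, Matrix.kroneckerMap_apply,
            Matrix.one_apply_eq, one_mul]
          exact ident_pp hQ hP h01 h02 p k
        · simp [cN, hb, T]
      · intro b'' _ hb''
        refine Finset.sum_eq_zero fun k' _ => ?_
        have : ¬ b = b'' := fun h => hb'' h.symm
        simp [cN, this]
      · intro h
        exact absurd (Finset.mem_univ _) h
    · have hone : ∑ j', cN D P G (Sum.inr j') (b, p) * T (Sum.inr j') (Sum.inr j) =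
          VT D (P p.1) (G j b) p.2 := by
        rw [Finset.sum_eq_single j]
        · simp [T, cN]
        · intro j' _ hj
          simp only [T, Matrix.fromBlocks_apply₂₂]
          rw [Matrix.one_apply_ne hj, mul_zero]
        · intro h
          exact absurd (Finset.mem_univ _) h
      have hpp : ∑ k', cN D P G (Sum.inl k') (b, p) * T (Sum.inl k') (Sum.inr j) =
          - ∑ k', ppc P k' p * corr D g g⁻¹ (G j b) k' := by
        rw [Fintype.sum_prod_type, Finset.sum_eq_single b]
        · simp only [cN, if_true, T, Matrix.fromBlocks_apply₁₂, Matrix.of_apply, mul_neg,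
            Finset.sum_neg_distrib]
        · intro b'' _ hb''
          refine Finset.sum_eq_zero fun k' _ => ?_
          have : ¬ b = b'' := fun h => hb'' h.symm
          simp [cN, this]
        · intro h
          exact absurd (Finset.mem_univ _) h
      rw [hone, hpp, neg_add_eq_sub]
      exact ident_vt D hQ hP h01 h02 h00 (G j b) p
  have h3 := congrArg Matrix.det hmat
  rw [Matrix.det_mul, Matrix.det_mul, Matrix.det_submatrix_equiv_self, hA, hT,
    Matrix.det_nonsing_inv, Ring.inverse_eq_inv'] at h3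
  change dt e (cN D P G) * _ = _ * dt e (cN D Q G) at h3
  have h2 : (g2 g).det = g.det / g 0 0 := by
    rw [hd]
    field_simp
  rw [h2] at h3
  have hne : ((g.det / g 0 0) ^ 3 * g.det⁻¹ ^ 2) ^ N ≠ 0 := by
    apply pow_ne_zero
    apply mul_ne_zero
    · exact pow_ne_zero _ (div_ne_zero hg h0)
    · exact pow_ne_zero _ (inv_ne_zero hg)
  apply mul_right_cancel₀ hne
  rw [h3]
  have h4 : (g.det ^ n * g 0 0 ^ 3) * ((g.det / g 0 0) ^ 3 * g.det⁻¹ ^ 2) = g.det ^ (n + 1) := by
    rw [pow_succ]
    field_simp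
    ring
  rw [← h4, mul_pow (g.det ^ n * g 0 0 ^ 3)]
  ring

end

end Pool.Agent.T2C.H38
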