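import Pool.Agent.Lib.MP_c7af3c_ag.T2C.H38.Forms

/-! Row C_P_DET: comparison of the determinant with the determinant in a local frame. -/

set_option autoImplicit false

namespace Pool.Agent.T2C.H38

open MvPolynomial Pool.Agent.Gen Pool.Agent.Sharp Pool.Agent.Edge
open Pool.Agent.Sharp.H75 (DG Tup Hom)
open Pool.Agent.Edge.H65 (ssub)

/-- order of the columns -/
def sg3 (U A J : Type) : U ⊕ (A ⊕ J) ≃ A ⊕ (U ⊕ J) where
  toFun := Sum.elim (fun u => Sum.inr (Sum.inl u))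
    (Sum.elim (fun a => Sum.inl a) fun j => Sum.inr (Sum.inr j))
  invFun := Sum.elim (fun a => Sum.inr (Sum.inl a))
    (Sum.elim (fun u => Sum.inl u) fun j => Sum.inr (Sum.inr j))
  left_inv := by rintro (u | a | j) <;> rfl
  right_inv := by rintro (a | u | j) <;> rfl

/-- the columns -/
abbrev Cx (N c : ℕ) : Type := (Fin N × K7) ⊕ ((Fin N × Fin c) ⊕ (Fin N × Wx c))

section

variable {L : Type} [Field L] {N n c : ℕ} {d : Fin c → ℕ}

/-- the determinant -/
noncomputable def Dl (e : Cx N c ≃ Rw N n) (D : DSys L n c d) (Z : Fin 3 → Fin (n + 1) → L)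
    (E : Dat N n c) (ζ ζ' : Fin 3 → MvPolynomial (Fin (n + 1)) L) : L :=
  dt e (cN D Z (Sum.elim (GU d ζ) (GV E ζ')))

/-- the columns in the other order -/
noncomputable def cU (D : DSys L n c d) (Z : Fin 3 → Fin (n + 1) → L)
    (E : Dat N n c) (ζ ζ' : Fin 3 → MvPolynomial (Fin (n + 1)) L) :
    (Fin N × Fin c) ⊕ ((Fin N × K7) ⊕ (Fin N × Wx c)) → Rw N n → L :=
  fun k => cN D Z (Sum.elim (GU d ζ) (GV E ζ')) (sg3 _ _ _ k)

theorem Dl_eq (e : Cx N c ≃ Rw N n) (D : DSys L n c d) (Z : Fin 3 → Fin (n + 1) → L)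
    (E : Dat N n c) (ζ ζ' : Fin 3 → MvPolynomial (Fin (n + 1)) L) :
    Dl e D Z E ζ ζ' = dt ((sg3 _ _ _).trans e) (cU D Z E ζ ζ') := by
  unfold Dl cU
  exact (dt_reindex (sg3 _ _ _) e (cN D Z (Sum.elim (GU d ζ) (GV E ζ')))).symm

theorem cU_U (D : DSys L n c d) (Z : Fin 3 → Fin (n + 1) → L)
    (E : Dat N n c) (ζ ζ' : Fin 3 → MvPolynomial (Fin (n + 1)) L) (u : Fin N × Fin c)
    (r : Rw N n) :
    cU D Z E ζ ζ' (Sum.inl u) r = H75.VT D (Z r.2.1) (GU d ζ u r.1) r.2.2 := rfl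

theorem cU_K (D : DSys L n c d) (Z : Fin 3 → Fin (n + 1) → L)
    (E : Dat N n c) (ζ ζ' : Fin 3 → MvPolynomial (Fin (n + 1)) L) (k : Fin N × K7)
    (r : Rw N n) :
    cU D Z E ζ ζ' (Sum.inr (Sum.inl k)) r = if r.1 = k.1 then ppc Z k.2 r.2 else 0 := rfl

theorem cU_J (D : DSys L n c d) (Z : Fin 3 → Fin (n + 1) → L)
    (E : Dat N n c) (ζ ζ' : Fin 3 → MvPolynomial (Fin (n + 1)) L) (j : Fin N × Wx c)
    (r : Rw N n) :
    cU D Z E ζ ζ' (Sum.inr (Sum.inr j)) r = H75.VT D (Z r.2.1) (GV E ζ' j r.1) r.2.2 := rfl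

/-- change of the block columns -/
theorem Dl_change (e : Cx N c ≃ Rw N n) (D : DSys L n c d) {E : Dat N n c} (hE : E.Hm d)
    (h2 : ∀ m, 2 ≤ d m) (P Z : Fin 3 → Fin (n + 1) → L)
    (hint : ∀ i, ∀ G : Tup L n c, Hom d G → (∀ m, ssub P (G m) = 0) → H75.VT D (Z i) G = 0)
    {ξ ζ ζ' : Fin 3 → MvPolynomial (Fin (n + 1)) L} (hζ : ∀ i, (ζ i).IsHomogeneous 1)
    (hζ' : ∀ i, (ζ' i).IsHomogeneous 1) {h : Matrix (Fin 3) (Fin 3) L}
    (hab : ∀ i, ssub P (ζ i) = ∑ j, C (h j i) * ssub P (ζ' j)) (h01 : h 0 1 = 0)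
    (h02 : h 0 2 = 0) :
    Dl e D Z E ξ ζ = (E0 c h).det ^ N * Dl e D Z E ξ ζ' := by
  rw [Dl_eq, Dl_eq]
  have h1 := col_op ((sg3 _ _ _).trans e) (cU D Z E ξ ζ') (cU D Z E ξ ζ)
    (Matrix.fromBlocks (1 : Matrix (Fin N × K7) (Fin N × K7) L) 0 0 (EJ N c h))
    (fun u => funext fun r => by rw [cU_U, cU_U]) ?_
  · rw [h1, Matrix.det_fromBlocks_zero₂₁, Matrix.det_one, one_mul, det_EJ]
  · intro v r
    rw [Fintype.sum_sum_type]
    rcases v with k | j
    · have h3 : ∑ j, Matrix.fromBlocks (1 : Matrix (Fin N × K7) (Fin N × K7) L) 0 0 (EJ N c h)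
          (Sum.inl k) (Sum.inr j) * cU D Z E ξ ζ' (Sum.inr (Sum.inr j)) r = 0 :=
        Finset.sum_eq_zero fun j _ => by simp
      rw [h3, add_zero, Finset.sum_eq_single k]
      · rw [Matrix.fromBlocks_apply₁₁, Matrix.one_apply_eq, one_mul, cU_K, cU_K]
      · intro k' _ hk
        rw [Matrix.fromBlocks_apply₁₁, Matrix.one_apply_ne (Ne.symm hk), zero_mul]
      · intro h
        exact absurd (Finset.mem_univ _) h
    · have h3 : ∑ k, Matrix.fromBlocks (1 : Matrix (Fin N × K7) (Fin N × K7) L) 0 0 (EJ N c h)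
          (Sum.inr j) (Sum.inl k) * cU D Z E ξ ζ' (Sum.inr (Sum.inl k)) r = 0 :=
        Finset.sum_eq_zero fun j _ => by simp
      rw [h3, zero_add]
      have h4 := congrFun (VT_change D hE h2 P (hint r.2.1) hζ hζ' hab h01 h02 j r.1) r.2.2
      rw [cU_J, h4, Finset.sum_apply]
      refine Finset.sum_congr rfl fun j' _ => ?_
      rw [cU_J, Matrix.fromBlocks_apply₂₂, Pi.smul_apply, smul_eq_mul]

/-- the gradient of a form at a point of its zero locus and the variation of the point -/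
theorem grad_VT (D : DSys L n c d) {x : Fin (n + 1) → L} (h0 : ∀ m, eval x (D.F m) = 0)
    {G : Tup L n c} (hG : Hom d G) (m : Fin c) :
    ∑ f, eval x (pderiv f (D.F m)) * H75.VT D x G f = - eval x (G m) := by
  have h1 := Pool.Agent.Gen.H12.der_eval (DG D G) x (D.F m)
  rw [h0 m, map_zero, ← H75.eval_dco, H75.dco_F D hG m] at h1
  have h2 : ∑ f, eval x (pderiv f (D.F m)) * H75.VT D x G f =
      ∑ f, eval x (pderiv f (D.F m)) * DG D G (x f) :=
    Finset.sum_congr rfl fun f _ => by rw [H75.VT_apply]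
  rw [h2]
  linear_combination -h1

theorem grad_x (D : DSys L n c d) {x : Fin (n + 1) → L} (h0 : ∀ m, eval x (D.F m) = 0)
    (m : Fin c) : ∑ f, eval x (pderiv f (D.F m)) * x f = 0 := by
  have h1 := congrArg (eval x) ((D.hom m).sum_X_mul_pderiv)
  rw [map_sum] at h1
  simp only [map_mul, eval_X, map_nsmul, h0 m, smul_zero] at h1
  rw [← h1]
  exact Finset.sum_congr rfl fun f _ => mul_comm _ _

/-- the functionals -/
noncomputable def rho (D : DSys L n c d) (x : Fin (n + 1) → L) (u : Fin N × Fin c) :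
    Rw N n → L :=
  fun r => if r.1 = u.1 then (if r.2.1 = 0 then eval x (pderiv r.2.2 (D.F u.2)) else 0) else 0

theorem rho_sum (D : DSys L n c d) (x : Fin (n + 1) → L) (u : Fin N × Fin c) (A : Rw N n → L) :
    ∑ r, rho D x u r * A r = ∑ f, eval x (pderiv f (D.F u.2)) * A (u.1, (0, f)) := by
  rw [Fintype.sum_prod_type, Finset.sum_eq_single u.1]
  · rw [Fintype.sum_prod_type, Finset.sum_eq_single 0]
    · refine Finset.sum_congr rfl fun f _ => ?_
      simp [rho]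
    · intro i _ hi
      refine Finset.sum_eq_zero fun f _ => ?_
      simp [rho, hi]
    · intro h
      exact absurd (Finset.mem_univ _) h
  · intro q _ hq
    refine Finset.sum_eq_zero fun f _ => ?_
    simp [rho, hq]
  · intro h
    exact absurd (Finset.mem_univ _) h

theorem eval_GV (E : Dat N n c) {x : Fin (n + 1) → L}
    {ζ : Fin 3 → MvPolynomial (Fin (n + 1)) L} (hx : ∀ i : Fin 2, eval x (ζ i.succ) = 0)
    (v : Fin N × Wx c) (p : Fin N) (m : Fin c) : eval x (GV E ζ v p m) = 0 := by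
  have h1 : eval x (ζ 1) = 0 := hx 0
  have h2 : eval x (ζ 2) = 0 := hx 1
  rcases v with ⟨q, w | b⟩
  · rcases w with i | j
    · simp only [GV, q5, map_mul, hx i, mul_zero]
    · fin_cases j <;> simp [GV, q5, h1, h2]
  · simp only [GV, map_mul, hx b.2, mul_zero]

/-- the functionals on the first columns -/
theorem rho_U (D : DSys L n c d) (Z : Fin 3 → Fin (n + 1) → L) (E : Dat N n c)
    (h0 : ∀ m, eval (Z 0) (D.F m) = 0) {ζ ζ' : Fin 3 → MvPolynomial (Fin (n + 1)) L}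
    (hζ : ∀ i, (ζ i).IsHomogeneous 1) :
    Matrix.det (Matrix.of fun u u' : Fin N × Fin c =>
      ∑ r, rho D (Z 0) u r * cU D Z E ζ ζ' (Sum.inl u') r) =
    ∏ u : Fin N × Fin c, (-(eval (Z 0) (ζ 0)) ^ d u.2) := by
  have h1 : (Matrix.of fun u u' : Fin N × Fin c =>
      ∑ r, rho D (Z 0) u r * cU D Z E ζ ζ' (Sum.inl u') r) =
      Matrix.diagonal fun u : Fin N × Fin c => (-(eval (Z 0) (ζ 0)) ^ d u.2) := by
    ext u u'
    rw [Matrix.of_apply, rho_sum]
    simp only [cU_U]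
    rw [grad_VT D h0 (GU_hom hζ u' u.1) u.2]
    by_cases huu : u = u'
    · subst huu
      rw [Matrix.diagonal_apply_eq]
      simp [GU]
    · rw [Matrix.diagonal_apply_ne _ huu]
      unfold GU
      split_ifs with h3
      · have h4 : u.2 ≠ u'.2 := fun h => huu (Prod.ext h3 h)
        rw [Pi.single_eq_of_ne h4, map_zero, neg_zero]
      · rw [Pi.zero_apply, map_zero, neg_zero]
  rw [h1, Matrix.det_diagonal]

/-- exchange of the first columns -/
theorem Dl_exch (e : Cx N c ≃ Rw N n) (D : DSys L n c d) {E : Dat N n c} (hE : E.Hm d)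
    (h2 : ∀ m, 2 ≤ d m) (Z : Fin 3 → Fin (n + 1) → L) (h0 : ∀ m, eval (Z 0) (D.F m) = 0)
    {ξ η ζ : Fin 3 → MvPolynomial (Fin (n + 1)) L} (hξ : ∀ i, (ξ i).IsHomogeneous 1)
    (hη : ∀ i, (η i).IsHomogeneous 1) (hζ : ∀ i, (ζ i).IsHomogeneous 1)
    (hx : ∀ i : Fin 2, eval (Z 0) (ζ i.succ) = 0) :
    Dl e D Z E ξ ζ * ∏ u : Fin N × Fin c, (-(eval (Z 0) (η 0)) ^ d u.2) =
      Dl e D Z E η ζ * ∏ u : Fin N × Fin c, (-(eval (Z 0) (ξ 0)) ^ d u.2) := by
  rw [Dl_eq, Dl_eq]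
  have h1 := dep ((sg3 _ _ _).trans e) (cU D Z E ξ ζ) (cU D Z E η ζ) (rho D (Z 0))
    (fun v => ?_) ?_
  · rwa [rho_U D Z E h0 hη, rho_U D Z E h0 hξ] at h1
  · funext r
    rcases v with k | j
    · rw [cU_K, cU_K]
    · rw [cU_J, cU_J]
  · intro u v
    rw [rho_sum]
    rcases v with ⟨q, k⟩ | j
    · by_cases hq : u.1 = q
      · have h3 : ∀ f, cU D Z E ξ ζ (Sum.inr (Sum.inl (q, k))) (u.1, (0, f)) =
            ppc Z k (0, f) := by
          intro f
          rw [cU_K]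
          exact if_pos hq
        simp only [h3]
        rcases k with k | k
        · simp only [ppc, if_true]
          exact grad_x D h0 u.2
        · refine Finset.sum_eq_zero fun f _ => ?_
          have h4 : ¬ (0 : Fin 3) = k.1.succ := (Fin.succ_ne_zero _).symm
          simp only [ppc, if_neg h4, mul_zero]
      · have h3 : ∀ f, cU D Z E ξ ζ (Sum.inr (Sum.inl (q, k))) (u.1, (0, f)) = 0 := by
          intro f
          rw [cU_K]
          exact if_neg hq
        simp only [h3, mul_zero, Finset.sum_const_zero]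
    · simp only [cU_J]
      rw [grad_VT D h0 (GV_hom hE h2 hζ j u.1) u.2, eval_GV E hx, neg_zero]

end

end Pool.Agent.T2C.H38
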