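import Pool.Agent.Lib.MP_c7af3c_ag.T2C.H38.LocE

/-! Row C_P_DET: the determinant in a local frame. -/

set_option autoImplicit false

namespace Pool.Agent.T2C.H38

open MvPolynomial Pool.Agent.Gen Pool.Agent.Sharp Pool.Agent.Edge
open Pool.Agent.Sharp.H75 (DG Tup Hom)
open Pool.Agent.Edge.H65 (ssub)

section

variable {L : Type} [Field L] {N n c : ℕ} {d : Fin c → ℕ}

theorem prod_pw (d : Fin c → ℕ) (a : L) :
    ∏ u : Fin N × Fin c, (-a ^ d u.2) =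
      (∏ _u : Fin N × Fin c, (-1 : L)) * (a ^ ∑ m, d m) ^ N := by
  have h1 : ∀ u : Fin N × Fin c, -a ^ d u.2 = (-1) * a ^ d u.2 := fun u => by ring
  simp only [h1]
  rw [Finset.prod_mul_distrib]
  congr 1
  rw [Fintype.prod_prod_type]
  simp only [Finset.prod_const, Finset.card_univ, Fintype.card_fin, Finset.prod_pow_eq_pow_sum]

theorem det_E2 (h : Matrix (Fin 3) (Fin 3) L) (h01 : h 0 1 = 0) (h02 : h 0 2 = 0) :
    h 0 0 * (E2 h).det = h.det := by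
  rw [Matrix.det_fin_two, Matrix.det_fin_three, h01, h02]
  simp only [E2, Matrix.of_apply, Fin.succ_zero_eq_one, Fin.succ_one_eq_two]
  ring

/-- **The determinant in a local frame.** -/
theorem loc_eq (hn : n = c + 3) (hs : ∑ m, d m = c + 5) (e : Cx N c ≃ Rw N n) (D : DSys L n c d)
    {E : Dat N n c} (hE : E.Hm d) (h2 : ∀ m, 2 ≤ d m) (P Z Q : Fin 3 → Fin (n + 1) → L)
    (h0 : ∀ m, eval (Z 0) (D.F m) = 0)
    (hint : ∀ i, ∀ G : Tup L n c, Hom d G → (∀ m, ssub P (G m) = 0) → H75.VT D (Z i) G = 0)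
    {ξ η : Fin 3 → MvPolynomial (Fin (n + 1)) L} (hξ : ∀ i, (ξ i).IsHomogeneous 1)
    (hη : ∀ i, (η i).IsHomogeneous 1) {g : Matrix (Fin 3) (Fin 3) L} (hg : g.det ≠ 0)
    (g01 : g 0 1 = 0) (g02 : g 0 2 = 0) (hZ : ∀ i f, Z i f = ∑ j, g i j * Q j f)
    (hab : ∀ i, ssub P (ξ i) = ∑ j, C (g⁻¹ j i) * ssub P (η j))
    (hx0 : eval (Z 0) (ξ 0) = 1) (hy0 : eval (Z 0) (η 0) = g 0 0)
    (hy : ∀ i : Fin 2, eval (Z 0) (η i.succ) = 0) :
    Dl e D Z E ξ ξ * g.det ^ N = Dl e D Q E η η := by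
  have hd : g.det = g 0 0 * (g2 g).det := by
    rw [Matrix.det_fin_three, Matrix.det_fin_two, g01, g02]
    simp only [g2, Matrix.of_apply, Fin.succ_zero_eq_one, Fin.succ_one_eq_two]
    ring
  have g0 : g 0 0 ≠ 0 := fun h => hg (by rw [hd, h, zero_mul])
  have hrow : ∀ j, g 0 0 * g⁻¹ 0 j = (1 : Matrix (Fin 3) (Fin 3) L) 0 j := by
    intro j
    have h1 := congrFun (congrFun (Matrix.mul_nonsing_inv g (isUnit_iff_ne_zero.2 hg)) 0) j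
    rw [Matrix.mul_apply, Fin.sum_univ_three, g01, g02] at h1
    rw [← h1]
    ring
  have h00 : g⁻¹ 0 0 = (g 0 0)⁻¹ := by
    have h1 := hrow 0
    rw [Matrix.one_apply_eq] at h1
    exact eq_inv_of_mul_eq_one_right h1
  have h01 : g⁻¹ 0 1 = 0 := by
    have h1 := hrow 1
    rw [Matrix.one_apply_ne (by decide)] at h1
    exact (mul_eq_zero.1 h1).resolve_left g0
  have h02 : g⁻¹ 0 2 = 0 := by
    have h1 := hrow 2
    rw [Matrix.one_apply_ne (by decide)] at h1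
    exact (mul_eq_zero.1 h1).resolve_left g0
  have hE0 : (E0 c g⁻¹).det = (g 0 0)⁻¹ ^ 2 * (g 0 0 * (g.det)⁻¹) ^ (4 + c) := by
    rw [det_E0, h00]
    have h1 := det_E2 g⁻¹ h01 h02
    rw [h00, Matrix.det_nonsing_inv, Ring.inverse_eq_inv'] at h1
    have h3 : (E2 g⁻¹).det = g 0 0 * (g.det)⁻¹ := by
      rw [← h1, ← mul_assoc, mul_inv_cancel₀ g0, one_mul]
    rw [h3]
  have a1 := Dl_change e D hE h2 P Z hint (ξ := ξ) hξ hη hab h01 h02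
  have a2 := Dl_exch e D hE h2 Z h0 hξ hη hη hy
  have a3 : Dl e D Z E η η = (g.det ^ n * g 0 0 ^ 3) ^ N * Dl e D Q E η η :=
    dt_frame e D _ hg g01 g02 hZ
  rw [hx0, hy0, prod_pw, prod_pw, hs, one_pow, one_pow, mul_one] at a2
  have hu : (∏ _u : Fin N × Fin c, (-1 : L)) ≠ 0 :=
    Finset.prod_ne_zero_iff.2 fun _ _ => by simp
  have a4 : Dl e D Z E ξ η * (g 0 0 ^ (c + 5)) ^ N = Dl e D Z E η η := by
    apply mul_right_cancel₀ hu
    rw [← a2]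
    ring
  have hne : (g 0 0 ^ (c + 5)) ^ N ≠ 0 := pow_ne_zero _ (pow_ne_zero _ g0)
  apply mul_right_cancel₀ hne
  have h5 : (E0 c g⁻¹).det * (g.det ^ n * g 0 0 ^ 3) * g.det = g 0 0 ^ (c + 5) := by
    rw [hE0, hn]
    have e1 : (g 0 0 * (g.det)⁻¹) ^ (4 + c) = g 0 0 ^ (4 + c) * (g.det ^ (c + 3) * g.det)⁻¹ := by
      rw [← pow_succ, mul_pow, inv_pow]
      congr 3
      ring
    rw [e1]
    have e2 : g 0 0 ^ (4 + c) * g 0 0 ^ 3 = g 0 0 ^ (c + 5) * g 0 0 ^ 2 := by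
      rw [← pow_add, ← pow_add]
      congr 1
      ring
    have hg' : g.det ^ (c + 3) * g.det ≠ 0 := mul_ne_zero (pow_ne_zero _ hg) hg
    calc (g 0 0)⁻¹ ^ 2 * (g 0 0 ^ (4 + c) * (g.det ^ (c + 3) * g.det)⁻¹) *
          (g.det ^ (c + 3) * g 0 0 ^ 3) * g.det
        = (g 0 0)⁻¹ ^ 2 * (g 0 0 ^ (4 + c) * g 0 0 ^ 3) *
          ((g.det ^ (c + 3) * g.det)⁻¹ * (g.det ^ (c + 3) * g.det)) := by ring
      _ = (g 0 0)⁻¹ ^ 2 * (g 0 0 ^ (c + 5) * g 0 0 ^ 2) := by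
          rw [inv_mul_cancel₀ hg', mul_one, e2]
      _ = ((g 0 0)⁻¹ * g 0 0) ^ 2 * g 0 0 ^ (c + 5) := by ring
      _ = g 0 0 ^ (c + 5) := by rw [inv_mul_cancel₀ g0, one_pow, one_mul]
  rw [a1]
  calc (E0 c g⁻¹).det ^ N * Dl e D Z E ξ η * g.det ^ N * (g 0 0 ^ (c + 5)) ^ N
      = (E0 c g⁻¹).det ^ N * g.det ^ N * (Dl e D Z E ξ η * (g 0 0 ^ (c + 5)) ^ N) := by ring
    _ = (E0 c g⁻¹).det ^ N * g.det ^ N *
        ((g.det ^ n * g 0 0 ^ 3) ^ N * Dl e D Q E η η) := by rw [a4, a3]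
    _ = ((E0 c g⁻¹).det * (g.det ^ n * g 0 0 ^ 3) * g.det) ^ N * Dl e D Q E η η := by
        rw [mul_pow, mul_pow]
        ring
    _ = Dl e D Q E η η * (g 0 0 ^ (c + 5)) ^ N := by
        rw [h5]
        ring

end

end Pool.Agent.T2C.H38
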