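import Pool.Agent.Lib.MP_c7af3c_ag.T2C.H38.Bnd

/-! Row C_P_DET: the inequality at one place. -/

set_option autoImplicit false

namespace Pool.Agent.T2C.H38

open MvPolynomial Pool.Agent.Gen Pool.Agent.Sharp Pool.Agent.Edge
open Pool.Agent.Sharp.H75 (DG Tup Hom)
open Pool.Agent.Edge.H65 (ssub)

section

variable {L : Type} [Field L] {Γ : Type} [LinearOrderedCommGroupWithZero Γ]
  {N n c : ℕ} {d : Fin c → ℕ}

/-- the linear form with the coefficients `a` at the coordinates `t` -/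
noncomputable def lt (t : Fin 3 → Fin (n + 1)) (a : Fin 3 → L) : MvPolynomial (Fin (n + 1)) L :=
  ∑ j, C (a j) * X (t j)

theorem lt_hom (t : Fin 3 → Fin (n + 1)) (a : Fin 3 → L) : (lt t a).IsHomogeneous 1 := by
  refine IsHomogeneous.sum _ _ _ fun j _ => ?_
  have h1 := (isHomogeneous_C (Fin (n + 1)) (a j)).mul (isHomogeneous_X L (t j))
  rwa [zero_add] at h1

theorem eval_lt (t : Fin 3 → Fin (n + 1)) (a : Fin 3 → L) (x : Fin (n + 1) → L) :
    eval x (lt t a) = ∑ j, a j * x (t j) := by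
  simp [lt]

theorem ssub_lt (P : Fin 3 → Fin (n + 1) → L) (t : Fin 3 → Fin (n + 1)) (a : Fin 3 → L) :
    ssub P (lt t a) = ∑ i, C (∑ j, P i (t j) * a j) * X i := by
  unfold lt
  rw [map_sum]
  simp only [map_mul, H65.ssub_X, H65.ssub_C, Finset.mul_sum, map_sum, Finset.sum_mul]
  rw [Finset.sum_comm]
  refine Finset.sum_congr rfl fun i _ => Finset.sum_congr rfl fun j _ => ?_
  ring

theorem lt_int {v : Valuation L Γ} (t : Fin 3 → Fin (n + 1)) {a : Fin 3 → L}
    (ha : ∀ j, v (a j) ≤ 1) : IntP v (lt t a) :=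
  IntP.sum _ fun j => (IntP.C (ha j)).mul (IntP.X _)

/-- the forms of the frame `(x, P 1, P 2)` -/
noncomputable def xi (x : Fin (n + 1) → L) (t : Fin 3 → Fin (n + 1)) (i : Fin 3) :
    MvPolynomial (Fin (n + 1)) L :=
  lt t fun j => (!![1, -x (t 1), -x (t 2); 0, 1, 0; 0, 0, 1] : Matrix (Fin 3) (Fin 3) L) j i

/-- an integral matrix with a determinant of size one -/
theorem inv_int {v : Valuation L Γ} {A : Matrix (Fin 3) (Fin 3) L} (hA : ∀ i j, v (A i j) ≤ 1)
    (hd : v A.det = 1) (i j : Fin 3) : v (A⁻¹ i j) ≤ 1 := by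
  have h0 : A.det ≠ 0 := fun h => by
    rw [h, map_zero] at hd
    exact zero_ne_one hd
  rw [Matrix.inv_def, Ring.inverse_eq_inv', Matrix.smul_apply, smul_eq_mul, map_mul, map_inv₀,
    hd, inv_one, one_mul, Matrix.adjugate_apply]
  refine (T2.G.v_det_le v _ (fun _ => 1) fun a k => ?_).trans (by simp)
  rw [Matrix.updateRow_apply]
  split_ifs
  · by_cases hk : k = i
    · subst hk
      rw [Pi.single_eq_same, map_one]
    · rw [Pi.single_eq_of_ne hk, map_zero]
      exact zero_le_one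
  · exact hA _ _

/-- **The inequality at one place.** -/
theorem place (hn : n = c + 3) (hs : ∑ m, d m = c + 5) (e : Cx N c ≃ Rw N n) (D : DSys L n c d)
    {E : Dat N n c} (hE : E.Hm d) (h2 : ∀ m, 2 ≤ d m) {x : Fin (n + 1) → L}
    {t : Fin 3 → Fin (n + 1)} {P : Fin 3 → Fin (n + 1) → L} (hp : Pl D x t P)
    (v : Valuation L Γ) {M : Γ} (hM : 1 ≤ M)
    (hdel : ∀ m I, I.degree = d m → ∀ f, v f ≤ 1 → v (D.del m I f) ≤ M)
    (τ : Fin 3 → Fin (n + 1)) :
    v (Dl e D ![x, P 1, P 2] E (xi x t) (xi x t) * (Mt P τ).det ^ N) ≤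
      M ^ Fintype.card (Cx N c) := by
  obtain ⟨t', Q, g, ht', hmax, hg, hvg, g01, g02, hZ, hQ, hQt⟩ :=
    adapt v x t P hp.Pt hp.x0 hp.xP
  have hQd : (Mt Q t').det ≠ 0 := fun h => by
    rw [h, map_zero] at hQt
    exact zero_ne_one hQt
  have hinv : ∀ i j, v ((Mt Q t')⁻¹ i j) ≤ 1 := inv_int (fun i j => hQ _ _) hQt
  set B : Matrix (Fin 3) (Fin 3) L := (Mt Q t')⁻¹ with hB
  set W : Matrix (Fin 3) (Fin 3) L := !![1, -x (t 1), -x (t 2); 0, 1, 0; 0, 0, 1] with hW
  set η : Fin 3 → MvPolynomial (Fin (n + 1)) L := fun i => lt t' fun j => B j i with hη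
  have hWP : ∀ i f, P i f = ∑ k, W i k * (![x, P 1, P 2] : Fin 3 → Fin (n + 1) → L) k f := by
    intro i f
    have h1 := hp.xP f
    rw [Fin.sum_univ_three, hp.x0] at h1
    rw [Fin.sum_univ_three]
    fin_cases i
    · simp only [hW, Fin.zero_eta, Matrix.of_apply, Matrix.cons_val', Matrix.cons_val_zero,
        Matrix.cons_val_one, Matrix.cons_val]
      rw [h1]
      ring
    · simp [hW]
    · simp [hW]
  have hMP : Mt P t' * B = W * g := by
    have h1 : Mt P t' = W * g * Mt Q t' := by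
      ext i j
      rw [Matrix.mul_assoc, Matrix.mul_apply]
      change P i (t' j) = _
      rw [hWP]
      refine Finset.sum_congr rfl fun k _ => ?_
      rw [hZ, Matrix.mul_apply]
      rfl
    rw [h1, Matrix.mul_assoc, hB, Matrix.mul_nonsing_inv _ (isUnit_iff_ne_zero.2 hQd),
      Matrix.mul_one]
  have hsη : ∀ j, ssub P (η j) = ∑ a, C ((W * g) a j) * X a := by
    intro j
    rw [hη]
    simp only
    rw [ssub_lt, ← hMP]
    rfl
  have hab : ∀ i, ssub P (xi x t i) = ∑ j, C (g⁻¹ j i) * ssub P (η j) := by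
    intro i
    have h1 : ssub P (xi x t i) = ∑ a, C (W a i) * X a := by
      unfold xi
      rw [ssub_lt]
      refine Finset.sum_congr rfl fun a _ => ?_
      congr 2
      rw [Finset.sum_eq_single a]
      · rw [hp.Pt, if_pos rfl, one_mul]
      · intro b _ hb
        rw [hp.Pt, if_neg (Ne.symm hb), zero_mul]
      · intro h
        exact absurd (Finset.mem_univ _) h
    have h3 : W = W * g * g⁻¹ := by
      rw [Matrix.mul_assoc, Matrix.mul_nonsing_inv _ (isUnit_iff_ne_zero.2 hg), Matrix.mul_one]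
    rw [h1]
    simp only [hsη, Finset.mul_sum]
    rw [Finset.sum_comm]
    refine Finset.sum_congr rfl fun a _ => ?_
    have h4 : W a i = ∑ j, (W * g) a j * g⁻¹ j i := by
      rw [← Matrix.mul_apply, ← h3]
    rw [h4, map_sum, Finset.sum_mul]
    refine Finset.sum_congr rfl fun j _ => ?_
    rw [C_mul]
    ring
  have hev : ∀ i, eval ((![x, P 1, P 2] : Fin 3 → Fin (n + 1) → L) 0) (η i) = g 0 i := by
    intro i
    rw [hη]
    simp only
    rw [eval_lt]
    have h1 : ∀ b, (![x, P 1, P 2] : Fin 3 → Fin (n + 1) → L) 0 (t' b) =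
        ∑ k, g 0 k * Mt Q t' k b := fun b => hZ 0 _
    have h3 : g 0 i = ∑ b, (g * Mt Q t') 0 b * B b i := by
      rw [← Matrix.mul_apply, Matrix.mul_assoc, hB,
        Matrix.mul_nonsing_inv _ (isUnit_iff_ne_zero.2 hQd), Matrix.mul_one]
    rw [h3]
    refine Finset.sum_congr rfl fun b _ => ?_
    rw [h1, Matrix.mul_apply, mul_comm]
  have hint : ∀ i, ∀ G : Tup L n c, Hom d G → (∀ m, ssub P (G m) = 0) →
      H75.VT D ((![x, P 1, P 2] : Fin 3 → Fin (n + 1) → L) i) G = 0 := by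
    intro i G hG h0
    have h1 := H8.fix_iff_VT.1 (hp.int G hG h0)
    fin_cases i
    · exact h1.1
    · exact h1.2 1
    · exact h1.2 2
  have hxξ : eval ((![x, P 1, P 2] : Fin 3 → Fin (n + 1) → L) 0) (xi x t 0) = 1 := by
    unfold xi
    rw [eval_lt, Fin.sum_univ_three]
    simp [hp.x0]
  have h3 := loc_eq hn hs e D hE h2 P ![x, P 1, P 2] Q hp.h0 hint (ξ := xi x t) (η := η)
    (fun i => lt_hom _ _) (fun i => lt_hom _ _) hg g01 g02 hZ hab hxξ (hev 0)
    (fun i => by
      rw [hev]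
      fin_cases i
      · exact g01
      · exact g02)
  have h4 := v_Dl e D hM hdel hE h2 hQ (ζ := η) (fun i => lt_hom _ _)
    fun i => lt_int t' fun j => hinv j i
  rw [← h3, map_mul, map_pow, hvg] at h4
  rw [map_mul, map_pow]
  exact (mul_le_mul' le_rfl (pow_le_pow_left' (hmax τ) N)).trans h4

end

end Pool.Agent.T2C.H38
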